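import Pool.Agent.H4.FC.SphIff
import Pool.Agent.H4.FD.Defs
import Pool.Agent.H4.Singer.TopDefs

/-!
# Right-angled Coxeter groups as Coxeter groups of FC type
-/

set_option autoImplicit false
set_option linter.unusedSectionVars false

open Finset

namespace Pool.Agent.H19.LG

open Pool.Agent.H4.Singer Pool.Agent.H4.FC

variable {V : Type} [Fintype V] [DecidableEq V]

theorem racg_of_adj (G : SimpleGraph V) {u v : V} (h : G.Adj u v) : (racg G).M u v = 2 := by
  simp [racg, h, h.ne]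

theorem racg_of_not (G : SimpleGraph V) {u v : V} (h1 : u ≠ v) (h : ¬ G.Adj u v) :
    (racg G).M u v = 0 := by
  simp [racg, h, h1]

theorem gr_adj (G : SimpleGraph V) (u v : V) : (gr (racg G)).Adj u v ↔ G.Adj u v := by
  constructor
  · rintro ⟨h1, h2⟩
    by_contra h3
    exact h2 (racg_of_not G h1 h3)
  · intro h
    refine ⟨h.ne, ?_⟩
    show (racg G).M u v ≠ 0
    rw [racg_of_adj G h]
    exact two_ne_zero

theorem gr_racg (G : SimpleGraph V) : gr (racg G) = G := by
  ext u v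
  exact gr_adj G u v

theorem dih_racg (G : SimpleGraph V) : IsDih (racg G) := by
  intro u v w h _ _
  left
  exact racg_of_adj G ((gr_adj G u v).1 h)

theorem fc_racg (G : SimpleGraph V) : Pool.Agent.H4.FD.IsFC (racg G) := fun σ hσ =>
  (sph_iff (racg G) (dih_racg G) σ).2 hσ

theorem sph_racg (G : SimpleGraph V) (σ : Finset V) :
    Sph (racg G) σ ↔ G.IsClique (σ : Set V) := by
  rw [sph_iff (racg G) (dih_racg G) σ, gr_racg]
  exact ⟨fun h a ha b hb => h _ (Finset.mem_coe.1 ha) _ (Finset.mem_coe.1 hb),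
    fun h a ha b hb => h (Finset.mem_coe.2 ha) (Finset.mem_coe.2 hb)⟩

theorem chain_racg (G : SimpleGraph V) (i : ℕ) (f : Finset V → RGrp G → ℂ) :
    Pool.Agent.H4.Singer.IsL2Chain G i f ↔ Pool.Agent.H4.FC.IsL2Chain (racg G) i f :=
  ⟨fun h => ⟨fun σ w hw => (h.supp σ w hw).imp_left (sph_racg G σ).2, h.anti, h.l2⟩,
    fun h => ⟨fun σ w hw => (h.supp σ w hw).imp_left (sph_racg G σ).1, h.anti, h.l2⟩⟩

/-- The two forms of the vanishing. -/
theorem l2_racg (G : SimpleGraph V) (i : ℕ) :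
    Pool.Agent.H4.Singer.L2HomologyZero G i ↔ Pool.Agent.H4.FC.L2HomologyZero (racg G) i := by
  constructor
  · intro h ν hν z hz hdz ε hε
    obtain ⟨y, hy, hyε⟩ := h ν hν z ((chain_racg G i z).2 hz) hdz ε hε
    exact ⟨y, (chain_racg G (i + 1) y).1 hy, hyε⟩
  · intro h ν hν z hz hdz ε hε
    obtain ⟨y, hy, hyε⟩ := h ν hν z ((chain_racg G i z).1 hz) hdz ε hε
    exact ⟨y, (chain_racg G (i + 1) y).2 hy, hyε⟩

end Pool.Agent.H19.LG
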