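import Pool.Agent.H19.LG.Defs

/-! # Project LG: Betti

The boundaries are cycles, and the boundary operator on the chains of degree `i + 1` has the cycles as its kernel
and the boundaries as its image.
-/

set_option autoImplicit false
set_option linter.unusedSectionVars false

open Finset Filter Topology

namespace Pool.Agent.H19.LG

open Pool.Agent.H19.Cub Pool.Agent.H4.Singer Pool.Agent.H85.Fold Pool.Agent.H85.Fold2

private theorem lgBetti_tdl_app {V : Type} [DecidableEq V] [Fintype V] (K : Type) [Field K]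
    {D X : Type} (ν : V → ℕ) (f : Finset V → X → D → K) (τ : Finset V)
    (x : X) (d : D) : tdl K ν f τ x d =
      ∑ v ∈ τᶜ, (sg ν v τ : K) * f (insert v τ) x d := by
  show (∑ v ∈ τᶜ, (sg ν v τ : K) • f (insert v τ) x) d = _
  rw [Finset.sum_apply]
  exact Finset.sum_congr rfl fun v _ => rfl

private theorem lgBetti_tdl_tdl {V : Type} [DecidableEq V] [Fintype V] (K : Type) [Field K]
    {D X : Type} (ν : V → ℕ) (hν : Function.Injective ν)
    (f : Finset V → X → D → K) : tdl K ν (tdl K ν f) = 0 := by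
  funext τ x d
  have h1 := congrFun (congrFun
    (dl_dl (F := K) ν hν (fun σ (x : X) => f σ x d)) τ) x
  rw [dl_apply] at h1
  rw [lgBetti_tdl_app]
  rw [Pi.zero_apply, Pi.zero_apply, Pi.zero_apply]
  rw [Pi.zero_apply, Pi.zero_apply] at h1
  rw [← h1]
  refine Finset.sum_congr rfl fun v _ => ?_
  rw [lgBetti_tdl_app, dl_apply]

private theorem lgBetti_SB_le {V : Type} [DecidableEq V] [Fintype V] (K : Type) [Field K]
    {D X : Type} [Fintype D] [DecidableEq D] (G : SimpleGraph V) (Y : X → Finset V)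
    (B : V → Matrix D D K) (s : V → X → X) (ν : V → ℕ)
    (hν : Function.Injective ν) (i : ℕ) : SB K G Y B s ν i ≤ SZ K G Y B s ν i := by
  rintro f ⟨y, hy, rfl⟩
  obtain ⟨hy1, hy2⟩ := hy
  refine ⟨⟨?_, ?_⟩, LinearMap.mem_ker.mpr (lgBetti_tdl_tdl K ν hν y)⟩
  · intro τ x hne
    have h' : ∑ v ∈ τᶜ, (sg ν v τ : K) • y (insert v τ) x ≠ 0 := hne
    obtain ⟨w, hw, hw'⟩ := Finset.exists_ne_zero_of_sum_ne_zero h'
    have hne' : y (insert w τ) x ≠ 0 := by
      intro h0
      exact hw' (by rw [h0, smul_zero])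
    obtain ⟨h0, h1, h2⟩ := hy1 _ _ hne'
    refine ⟨(Finset.subset_insert _ _).trans h0,
      fun a ha b hb hab => h1 a (Finset.mem_insert_of_mem ha) b
      (Finset.mem_insert_of_mem hb) hab, ?_⟩
    rw [Finset.card_insert_of_notMem (Finset.mem_compl.mp hw)] at h2
    omega
  · intro τ v hv x
    show ∑ w ∈ τᶜ, (sg ν w τ : K) • y (insert w τ) (s v x) =
      -(B v).mulVec (∑ w ∈ τᶜ, (sg ν w τ : K) • y (insert w τ) x)
    rw [Matrix.mulVec_sum, ← Finset.sum_neg_distrib]
    refine Finset.sum_congr rfl fun w _ => ?_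
    rw [hy2 _ v (Finset.mem_insert_of_mem hv) x, Matrix.mulVec_smul, smul_neg]

theorem bS_add {V : Type} [DecidableEq V] [Fintype V] (K : Type) [Field K] {D X : Type}
    [Fintype D] [DecidableEq D] [Fintype X] (G : SimpleGraph V) (Y : X → Finset V)
    (B : V → Matrix D D K) (s : V → X → X) (hs : IsSpec G Y s) (ν : V → ℕ)
    (hν : Function.Injective ν) (i : ℕ) :
    bS K G Y B s ν i + Module.finrank K (SCh K G Y B s (i + 1)) =
      Module.finrank K (SZ K G Y B s ν i) + Module.finrank K (SZ K G Y B s ν (i + 1)) := by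
  have h1 := LinearMap.finrank_range_add_finrank_ker
    ((tdl K ν).domRestrict (SCh K G Y B s (i + 1)))
  have h2 : LinearMap.range ((tdl K ν).domRestrict (SCh K G Y B s (i + 1))) =
      SB K G Y B s ν i := by
    rw [LinearMap.range_domRestrict]
    rfl
  have h3 : Module.finrank K (LinearMap.ker ((tdl K ν).domRestrict (SCh K G Y B s (i + 1)))) =
      Module.finrank K (SZ K G Y B s ν (i + 1)) := by
    have h4 : LinearMap.ker ((tdl K ν).domRestrict (SCh K G Y B s (i + 1))) =
        (LinearMap.ker (tdl K ν)).comap (SCh K G Y B s (i + 1)).subtype := by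
      ext z
      simp [LinearMap.mem_ker]
    rw [h4, ← Submodule.finrank_map_subtype_eq, Submodule.map_comap_subtype]
    rfl
  have h5 : Module.finrank K (SB K G Y B s ν i) ≤ Module.finrank K (SZ K G Y B s ν i) :=
    Submodule.finrank_mono (lgBetti_SB_le K G Y B s ν hν i)
  rw [h2, h3] at h1
  unfold bS
  omega

end Pool.Agent.H19.LG
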