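import Pool.Agent.H19.LG.Defs

/-! # Project LG: ChDim -/

set_option autoImplicit false
set_option linter.unusedSectionVars false

open Finset Filter Topology

namespace Pool.Agent.H19.LG

open Pool.Agent.H19.Cub Pool.Agent.H4.Singer Pool.Agent.H85.Fold Pool.Agent.H85.Fold2

section aux

variable {V : Type} [DecidableEq V] [Fintype V] (K : Type) [Field K]
  (G : SimpleGraph V) {X : Type} (Y : X → Finset V) (s : V → X → X) (b : X → V → Bool) (i : ℕ)

/-- the chains which are antisymmetric for the labels in `A` and supported on the points with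
vanishing bits outside `A` -/
private def lgChDim_E (A : Finset V) : Submodule K (Finset V → X → Unit → K) where
  carrier := {f | (∀ σ x, f σ x ≠ 0 → σ ⊆ Y x ∧ Cl G σ ∧ σ.card = i ∧
    ∀ v ∈ σ, v ∉ A → b x v = false) ∧ ∀ σ, ∀ v ∈ σ, v ∈ A → ∀ x, f σ (s v x) = - f σ x}
  zero_mem' := by
    refine ⟨fun σ x h => absurd rfl h, fun σ v _ _ x => by simp⟩
  add_mem' := by
    rintro f g ⟨h1, h2⟩ ⟨h3, h4⟩
    refine ⟨fun σ x h => ?_, fun σ v hv hA x => ?_⟩
    · by_cases hf : f σ x = 0
      · by_cases hg : g σ x = 0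
        · exact absurd (by simp [hf, hg]) h
        · exact h3 σ x hg
      · exact h1 σ x hf
    · simp only [Pi.add_apply]
      rw [h2 σ v hv hA x, h4 σ v hv hA x]
      abel
  smul_mem' := by
    rintro c f ⟨h1, h2⟩
    refine ⟨fun σ x h => h1 σ x ?_, fun σ v hv hA x => ?_⟩
    · intro h0
      exact h (by simp [h0])
    · simp only [Pi.smul_apply]
      rw [h2 σ v hv hA x, smul_neg]

variable {G Y s b}

/-- one label more -/
private def lgChDim_step (hs : IsSpec G Y s)
    (hb : ∀ x u v, b (s u x) v = if u = v then !(b x v) else b x v) {A : Finset V} {v : V}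
    (hv : v ∉ A) : lgChDim_E K G Y s b i (insert v A) ≃ₗ[K] lgChDim_E K G Y s b i A where
  toFun f := ⟨fun σ x => if v ∈ σ ∧ b x v = true then 0 else f.1 σ x, by
    obtain ⟨f, h1, h2⟩ := f
    refine ⟨fun σ x h => ?_, fun σ w hw hwA x => ?_⟩
    · have h' : (if v ∈ σ ∧ b x v = true then 0 else f σ x) ≠ 0 := h
      have h3 : ¬ (v ∈ σ ∧ b x v = true) := by
        intro h3
        exact h' (if_pos h3)
      rw [if_neg h3] at h'
      obtain ⟨h4, h5, h6, h7⟩ := h1 σ x h'
      refine ⟨h4, h5, h6, fun w hw hwA => ?_⟩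
      by_cases hwv : w = v
      · subst hwv
        by_contra hcon
        exact h3 ⟨hw, by simpa using hcon⟩
      · exact h7 w hw (by simp [hwv, hwA])
    · have hwv : w ≠ v := fun e => hv (e ▸ hwA)
      have h3 : b (s w x) v = b x v := by rw [hb, if_neg hwv]
      simp only [h3]
      split_ifs
      · simp
      · exact h2 σ w hw (mem_insert_of_mem hwA) x⟩
  invFun f := ⟨fun σ x => f.1 σ x - if v ∈ σ then f.1 σ (s v x) else 0, by
    obtain ⟨f, h1, h2⟩ := f
    refine ⟨fun σ x h => ?_, fun σ w hw hwA x => ?_⟩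
    · by_cases h3 : f σ x = 0
      · have h4 : v ∈ σ ∧ f σ (s v x) ≠ 0 := by
          by_contra hcon
          apply h
          simp only [h3, zero_sub, neg_eq_zero]
          split_ifs with h4
          · by_contra h5
            exact hcon ⟨h4, h5⟩
          · rfl
        obtain ⟨h5, h6, h7, h8⟩ := h1 σ _ h4.2
        refine ⟨(hs.sub_iff h6 h4.1).1 h5, h6, h7, fun w hw hwA => ?_⟩
        have hwv : v ≠ w := fun e => hwA (e ▸ mem_insert_self _ _)
        have h9 := h8 w hw fun h => hwA (mem_insert_of_mem h)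
        rwa [hb, if_neg hwv] at h9
      · obtain ⟨h5, h6, h7, h8⟩ := h1 σ x h3
        exact ⟨h5, h6, h7, fun w hw hwA => h8 w hw fun h => hwA (mem_insert_of_mem h)⟩
    · by_cases hwv : w = v
      · subst hwv
        simp only [if_pos hw, hs.inv]
        abel
      · have hwA' : w ∈ A := (mem_insert.1 hwA).resolve_left hwv
        by_cases hvσ : v ∈ σ
        · simp only [if_pos hvσ]
          by_cases hcl : Cl G σ
          · rw [hs.comm v w (hcl v hvσ w hw (Ne.symm hwv)), h2 σ w hw hwA' x,
              h2 σ w hw hwA' (s v x)]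
            abel
          · have h3 : ∀ y, f σ y = 0 := by
              intro y
              by_contra h4
              exact hcl (h1 σ y h4).2.1
            rw [h3, h3, h3, h3]
            simp
        · simp only [if_neg hvσ, sub_zero]
          exact h2 σ w hw hwA' x⟩
  left_inv f := by
    obtain ⟨f, h1, h2⟩ := f
    apply Subtype.ext
    funext σ x
    show (if v ∈ σ ∧ b x v = true then 0 else f σ x) -
      (if v ∈ σ then (if v ∈ σ ∧ b (s v x) v = true then 0 else f σ (s v x)) else 0) = f σ x
    by_cases hvσ : v ∈ σ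
    · have h3 := h2 σ v hvσ (mem_insert_self _ _) x
      have h4 : b (s v x) v = !(b x v) := by rw [hb, if_pos rfl]
      rw [h4, h3]
      cases b x v <;> simp [hvσ]
    · simp [hvσ]
  right_inv f := by
    obtain ⟨f, h1, h2⟩ := f
    apply Subtype.ext
    funext σ x
    show (if v ∈ σ ∧ b x v = true then 0 else f σ x - if v ∈ σ then f σ (s v x) else 0) = f σ x
    by_cases hvσ : v ∈ σ
    · have h4 : b (s v x) v = !(b x v) := by rw [hb, if_pos rfl]
      by_cases h5 : b x v = true
      · rw [if_pos ⟨hvσ, h5⟩]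
        by_contra hne
        have h6 := (h1 σ x fun h => hne h.symm).2.2.2 v hvσ hv
        rw [h5] at h6
        exact absurd h6 (by simp)
      · rw [if_neg fun h => h5 h.2, if_pos hvσ]
        have h7 : f σ (s v x) = 0 := by
          by_contra hne
          have h6 := (h1 σ _ hne).2.2.2 v hvσ hv
          rw [h4] at h6
          apply h5
          simpa using h6
        rw [h7, sub_zero]
    · simp [hvσ]
  map_add' f g := by
    apply Subtype.ext
    funext σ x
    show (if v ∈ σ ∧ b x v = true then 0 else f.1 σ x + g.1 σ x) =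
      (if v ∈ σ ∧ b x v = true then 0 else f.1 σ x) + if v ∈ σ ∧ b x v = true then 0 else g.1 σ x
    split_ifs <;> simp
  map_smul' c f := by
    apply Subtype.ext
    funext σ x
    show (if v ∈ σ ∧ b x v = true then 0 else c • f.1 σ x) =
      c • if v ∈ σ ∧ b x v = true then 0 else f.1 σ x
    split_ifs <;> simp

private theorem lgChDim_all (hs : IsSpec G Y s)
    (hb : ∀ x u v, b (s u x) v = if u = v then !(b x v) else b x v) (A : Finset V) :
    Module.finrank K (lgChDim_E K G Y s b i A) = Module.finrank K (lgChDim_E K G Y s b i ∅) := by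
  induction A using Finset.induction_on with
  | empty => rfl
  | insert v A hv ih => rw [← ih]; exact (lgChDim_step K i hs hb hv).finrank_eq

variable (G Y b)

/-- the points with vanishing bits -/
private abbrev lgChDim_R : Type :=
  {p : X × Finset V // p.2 ⊆ Y p.1 ∧ Cl G p.2 ∧ p.2.card = i ∧ ∀ v ∈ p.2, b p.1 v = false}

private noncomputable instance [Fintype X] : Fintype (lgChDim_R G Y b i) := by
  classical
  unfold lgChDim_R
  infer_instance

variable {G Y b}

open Classical in
private noncomputable def lgChDim_emp :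
    lgChDim_E K G Y s b i ∅ ≃ₗ[K] (lgChDim_R G Y b i → K) where
  toFun f r := f.1 r.1.2 r.1.1 ()
  invFun g := ⟨fun σ x _ => if h : σ ⊆ Y x ∧ Cl G σ ∧ σ.card = i ∧ ∀ v ∈ σ, b x v = false
    then g ⟨(x, σ), h⟩ else 0, by
    refine ⟨fun σ x h => ?_, fun σ v _ hA => absurd hA (notMem_empty v)⟩
    by_cases h1 : σ ⊆ Y x ∧ Cl G σ ∧ σ.card = i ∧ ∀ v ∈ σ, b x v = false
    · exact ⟨h1.1, h1.2.1, h1.2.2.1, fun v hv _ => h1.2.2.2 v hv⟩
    · exfalso
      apply h
      funext _
      exact dif_neg h1⟩
  left_inv f := by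
    obtain ⟨f, h1, h2⟩ := f
    apply Subtype.ext
    funext σ x u
    show (if h : σ ⊆ Y x ∧ Cl G σ ∧ σ.card = i ∧ ∀ v ∈ σ, b x v = false then f σ x () else 0) = _
    by_cases h : σ ⊆ Y x ∧ Cl G σ ∧ σ.card = i ∧ ∀ v ∈ σ, b x v = false
    · rw [dif_pos h]
    · rw [dif_neg h]
      by_contra hne
      have h3 : f σ x ≠ 0 := fun h4 => hne (congrFun h4 u).symm
      obtain ⟨h4, h5, h6, h7⟩ := h1 σ x h3
      exact h ⟨h4, h5, h6, fun v hv => h7 v hv (notMem_empty v)⟩
  right_inv g := by
    funext r
    exact dif_pos r.2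
  map_add' _ _ := rfl
  map_smul' _ _ := rfl

private theorem lgChDim_univ :
    lgChDim_E K G Y s b i univ = SCh K G Y (fun _ => (1 : Matrix Unit Unit K)) s i := by
  ext f
  constructor
  · rintro ⟨h1, h2⟩
    refine ⟨fun σ x h => ?_, fun σ v hv x => ?_⟩
    · obtain ⟨h3, h4, h5, -⟩ := h1 σ x h
      exact ⟨h3, h4, h5⟩
    · rw [Matrix.one_mulVec]
      exact h2 σ v hv (mem_univ v) x
  · rintro ⟨h1, h2⟩
    refine ⟨fun σ x h => ?_, fun σ v hv _ x => ?_⟩
    · obtain ⟨h3, h4, h5⟩ := h1 σ x h
      exact ⟨h3, h4, h5, fun v _ hv => absurd (mem_univ v) hv⟩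
    · have h3 := h2 σ v hv x
      rwa [Matrix.one_mulVec] at h3

open Classical in
/-- counting, for one clique -/
private theorem lgChDim_cnt [Fintype X] (hs : IsSpec G Y s)
    (hb : ∀ x u v, b (s u x) v = if u = v then !(b x v) else b x v) {σ : Finset V}
    (hσ : Cl G σ) : ∀ T : Finset V, T ⊆ σ →
      (univ.filter fun x : X => σ ⊆ Y x ∧ ∀ v ∈ T, b x v = false).card * 2 ^ T.card =
        (univ.filter fun x : X => σ ⊆ Y x).card := by
  intro T
  induction T using Finset.induction_on with
  | empty => intro _; simp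
  | insert v T hv ih =>
    intro hT
    have hT' : T ⊆ σ := (subset_insert _ _).trans hT
    have hvσ : v ∈ σ := hT (mem_insert_self _ _)
    rw [← ih hT', card_insert_of_notMem hv, pow_succ, mul_comm (2 ^ T.card) 2, ← mul_assoc]
    congr 1
    have h1 : (univ.filter fun x : X => σ ⊆ Y x ∧ ∀ w ∈ T, b x w = false) =
        (univ.filter fun x : X => σ ⊆ Y x ∧ ∀ w ∈ insert v T, b x w = false) ∪
        (univ.filter fun x : X => σ ⊆ Y x ∧ ∀ w ∈ insert v T, b x w = false).image (s v) := by
      ext x
      simp only [mem_union, mem_filter, mem_univ, true_and, mem_image]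
      constructor
      · rintro ⟨h2, h3⟩
        by_cases h4 : b x v = false
        · left
          refine ⟨h2, fun w hw => ?_⟩
          rcases mem_insert.1 hw with rfl | hw
          · exact h4
          · exact h3 w hw
        · right
          refine ⟨s v x, ⟨hs.sub hσ hvσ h2, fun w hw => ?_⟩, hs.inv v x⟩
          rw [hb]
          rcases mem_insert.1 hw with rfl | hw
          · rw [if_pos rfl]
            simpa using h4
          · rw [if_neg (fun e : v = w => hv (e ▸ hw))]
            exact h3 w hw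
      · rintro (⟨h2, h3⟩ | ⟨y, ⟨h2, h3⟩, rfl⟩)
        · exact ⟨h2, fun w hw => h3 w (mem_insert_of_mem hw)⟩
        · refine ⟨hs.sub hσ hvσ h2, fun w hw => ?_⟩
          rw [hb, if_neg (fun e : v = w => hv (e ▸ hw))]
          exact h3 w (mem_insert_of_mem hw)
    have hinj : Function.Injective (s v) := fun x y h => by
      have h2 := congrArg (s v) h
      rwa [hs.inv, hs.inv] at h2
    rw [h1, card_union_of_disjoint, card_image_of_injective _ hinj]
    · ring
    · rw [disjoint_left]
      intro x hx hx'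
      simp only [mem_filter, mem_univ, true_and, mem_image] at hx hx'
      obtain ⟨y, ⟨h2, h3⟩, rfl⟩ := hx'
      have h4 := hx.2 v (mem_insert_self _ _)
      rw [hb, if_pos rfl, h3 v (mem_insert_self _ _)] at h4
      exact absurd h4 (by simp)

end aux

theorem two_pow_cT {V : Type} [DecidableEq V] [Fintype V] (K : Type) [Field K]
    (G : SimpleGraph V) {X : Type} [Fintype X] (Y : X → Finset V) (s : V → X → X)
    (hs : IsSpec G Y s) (b : X → V → Bool)
    (hb : ∀ x u v, b (s u x) v = if u = v then !(b x v) else b x v) (i : ℕ) :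
    2 ^ i * cT K G Y s i = nn G Y i := by
  classical
  have h1 : cT K G Y s i = Fintype.card (lgChDim_R G Y b i) := by
    unfold cT
    rw [← lgChDim_univ K (b := b), lgChDim_all K i hs hb univ, (lgChDim_emp K i).finrank_eq,
      Module.finrank_fintype_fun_eq_card]
  rw [h1]
  unfold nn
  have h2 : Fintype.card (lgChDim_R G Y b i) = ∑ σ : Finset V, if Cl G σ ∧ σ.card = i then
      (univ.filter fun x : X => σ ⊆ Y x ∧ ∀ v ∈ σ, b x v = false).card else 0 := by
    rw [Fintype.card_subtype, card_filter, ← univ_product_univ, sum_product_right]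
    refine sum_congr rfl fun σ _ => ?_
    split_ifs with h
    · rw [card_filter]
      refine sum_congr rfl fun x _ => ?_
      simp only [h.1, h.2, true_and]
    · refine sum_eq_zero fun x _ => if_neg fun h3 => h ⟨h3.2.1, h3.2.2.1⟩
  have h3 : Fintype.card (RS G Y i) = ∑ σ : Finset V, if Cl G σ ∧ σ.card = i then
      (univ.filter fun x : X => σ ⊆ Y x).card else 0 := by
    have hcl : ∀ σ : Finset V, G.IsClique (σ : Set V) ↔ Cl G σ := fun σ =>
      ⟨fun h a ha c hc hac => h ha hc hac, fun h a ha c hc hac => h a ha c hc hac⟩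
    have h4 : Fintype.card (RS G Y i) = (univ.filter fun p : X × Finset V =>
        p.2 ⊆ Y p.1 ∧ G.IsClique (p.2 : Set V) ∧ p.2.card = i).card := by
      rw [← Fintype.card_subtype]
    rw [h4, card_filter, ← univ_product_univ, sum_product_right]
    refine sum_congr rfl fun σ _ => ?_
    split_ifs with h
    · rw [card_filter]
      refine sum_congr rfl fun x _ => ?_
      simp only [(hcl σ).2 h.1, h.2, and_true]
    · refine sum_eq_zero fun x _ => if_neg fun h3 => h ⟨(hcl σ).1 h3.2.1, h3.2.2⟩
  rw [h2, h3, mul_sum]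
  refine sum_congr rfl fun σ _ => ?_
  split_ifs with h
  · have h4 := lgChDim_cnt hs hb h.1 σ Subset.rfl
    rw [h.2] at h4
    rw [← h4, mul_comm]
  · rw [mul_zero]

end Pool.Agent.H19.LG
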