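import Pool.Agent.H19.LG.Defs

/-! # Project LG: Copies -/

set_option autoImplicit false
set_option linter.unusedSectionVars false

open Finset Filter Topology

namespace Pool.Agent.H19.LG

open Pool.Agent.H19.Cub Pool.Agent.H4.Singer Pool.Agent.H85.Fold Pool.Agent.H85.Fold2

/-- the slice at `q` -/
private def lgCopies_sl {V K Ω P Q : Type} (q : Q) (f : Finset V → (Ω × Q) × P → Unit → K) :
    Finset V → Ω × P → Unit → K :=
  fun σ x u => f σ ((x.1, q), x.2) u

private theorem lgCopies_tdl {V : Type} [DecidableEq V] [Fintype V] {K : Type} [Field K]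
    {Ω P Q : Type} (ν : V → ℕ) (q : Q) (f : Finset V → (Ω × Q) × P → Unit → K) :
    lgCopies_sl q (tdl K ν f) = tdl K ν (lgCopies_sl q f) := by
  funext τ x u
  change (∑ v ∈ τᶜ, (Pool.Agent.H4.Singer.sg ν v τ : K) • f (insert v τ) ((x.1, q), x.2)) u =
    (∑ v ∈ τᶜ, (Pool.Agent.H4.Singer.sg ν v τ : K) • lgCopies_sl q f (insert v τ) x) u
  rw [Finset.sum_apply, Finset.sum_apply]
  rfl

private theorem lgCopies_SCh {V : Type} [DecidableEq V] [Fintype V] {K : Type} [Field K]
    (G : SimpleGraph V) {Ω P Q : Type} [Group P]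
    (Y : Ω → Finset V) (g : V → P) (i : ℕ) (f : Finset V → (Ω × Q) × P → Unit → K) :
    f ∈ SCh K G (prY (prY Y Q) P) (fun _ => (1 : Matrix Unit Unit K)) (prS triv g) i ↔
      ∀ q, lgCopies_sl q f ∈
        SCh K G (prY Y P) (fun _ => (1 : Matrix Unit Unit K)) (prS triv g) i := by
  constructor
  · rintro ⟨h1, h2⟩ q
    refine ⟨fun σ x hne => h1 σ ((x.1, q), x.2) hne, fun σ v hv x => ?_⟩
    exact h2 σ v hv ((x.1, q), x.2)
  · intro h
    refine ⟨fun σ x hne => (h x.1.2).1 σ (x.1.1, x.2) hne, fun σ v hv x => ?_⟩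
    exact (h x.1.2).2 σ v hv (x.1.1, x.2)

private theorem lgCopies_SZ {V : Type} [DecidableEq V] [Fintype V] {K : Type} [Field K]
    (G : SimpleGraph V) {Ω P Q : Type} [Group P]
    (Y : Ω → Finset V) (g : V → P) (ν : V → ℕ) (i : ℕ)
    (f : Finset V → (Ω × Q) × P → Unit → K) :
    f ∈ SZ K G (prY (prY Y Q) P) (fun _ => (1 : Matrix Unit Unit K)) (prS triv g) ν i ↔
      ∀ q, lgCopies_sl q f ∈
        SZ K G (prY Y P) (fun _ => (1 : Matrix Unit Unit K)) (prS triv g) ν i := by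
  constructor
  · intro h q
    refine ⟨(lgCopies_SCh G Y g i f).1 h.1 q, ?_⟩
    change tdl K ν (lgCopies_sl q f) = 0
    rw [← lgCopies_tdl, show tdl K ν f = 0 from h.2]
    rfl
  · intro h
    refine ⟨(lgCopies_SCh G Y g i f).2 fun q => (h q).1, ?_⟩
    change tdl K ν f = 0
    funext σ x u
    have h1 : tdl K ν (lgCopies_sl x.1.2 f) = 0 := (h x.1.2).2
    rw [← lgCopies_tdl] at h1
    exact congrFun (congrFun (congrFun h1 σ) (x.1.1, x.2)) u

theorem zT_copies {V : Type} [DecidableEq V] [Fintype V] (K : Type) [Field K]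
    (G : SimpleGraph V) {Ω P Q : Type} [Fintype Ω] [Group P] [Fintype P] [Fintype Q]
    (Y : Ω → Finset V) (g : V → P) (ν : V → ℕ) (i : ℕ) :
    zT K G (prY (prY Y Q) P) (prS triv g) ν i =
      Fintype.card Q * zT K G (prY Y P) (prS triv g) ν i := by
  let e : SZ K G (prY (prY Y Q) P) (fun _ => (1 : Matrix Unit Unit K)) (prS triv g) ν i ≃ₗ[K]
      (Q → SZ K G (prY Y P) (fun _ => (1 : Matrix Unit Unit K)) (prS triv g) ν i) :=
    { toFun := fun f q => ⟨lgCopies_sl q f.1, (lgCopies_SZ G Y g ν i f.1).1 f.2 q⟩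
      map_add' := fun f h => rfl
      map_smul' := fun c f => rfl
      invFun := fun h => ⟨fun σ x u => (h x.1.2).1 σ (x.1.1, x.2) u,
        (lgCopies_SZ G Y g ν i _).2 fun q => (h q).2⟩
      left_inv := fun f => rfl
      right_inv := fun h => rfl }
  unfold zT
  rw [e.finrank_eq, Module.finrank_pi_fintype, Finset.sum_const, Finset.card_univ, smul_eq_mul]

end Pool.Agent.H19.LG
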