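import Pool.Agent.H19.LG.CycBound
import Pool.Agent.H19.LG.ChDim
import Pool.Agent.H19.LG.Untw
import Pool.Agent.H19.LG.Copies
import Pool.Agent.H19.LG.Betti

/-! # Project LG: Core -/

set_option autoImplicit false
set_option linter.unusedSectionVars false

open Finset Filter Topology

namespace Pool.Agent.H19.LG

open Pool.Agent.H19.Cub Pool.Agent.H4.Singer Pool.Agent.H85.Fold Pool.Agent.H85.Fold2

theorem nn_pr {V : Type} [DecidableEq V] [Fintype V] (G : SimpleGraph V) {Ω : Type} [Fintype Ω]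
    (Y : Ω → Finset V) (P : Type) [Fintype P] (i : ℕ) :
    nn G (prY Y P) i = Fintype.card P * nn G Y i := by
  classical
  unfold nn
  rw [← Fintype.card_prod]
  refine Fintype.card_congr
    { toFun := fun q => (q.1.1.2, ⟨(q.1.1.1, q.1.2), q.2⟩)
      invFun := fun q => ⟨((q.2.1.1, q.1), q.2.1.2), q.2.2⟩
      left_inv := fun q => rfl
      right_inv := fun q => rfl }

theorem core {V : Type} [DecidableEq V] [Fintype V] (K : Type) [Field K] {G : SimpleGraph V}
    {P : Type} [Group P] [Fintype P] [DecidableEq P] (D : BG G P) (m : ℕ) [NeZero m]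
    {P' : Type} [Group P'] [Fintype P'] (D' : BG G P')
    (r : P' →* Matrix (ZMod m × P) (ZMod m × P) K)
    (hr : ∀ v, r (D'.g v) = (Bm D m v).map (Int.cast : ℤ → K))
    {Ω : Type} [Fintype Ω] (Y : Ω → Finset V) (s : V → Ω → Ω) (hs : IsSpec G Y s)
    (ν : V → ℕ) (hν : Function.Injective ν) (i : ℕ) :
    m * Fintype.card P * bT K G (prY Y P') (prS s D'.g) ν i ≤
      (nn G Y i + nn G Y (i + 1)) * Fintype.card P * Fintype.card P' +
        m * Fintype.card P' * bT K G (prY Y P) (prS triv D.g) ν i := by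
  have hs' : IsSpec G (prY Y P') (prS s D'.g) := isSpec_pr hs D'.g D'.sq D'.comm
  have hd : IsSpec G (prY Y P) (prS triv D.g) := isSpec_pr (isSpec_triv G Y) D.g D.sq D.comm
  have h1 := cyc_bound K D m (prY Y P') (prS s D'.g) hs' ν i
  have h2 := cyc_bound K D m (prY Y P') (prS s D'.g) hs' ν (i + 1)
  rw [zT_copies, nn_pr] at h1 h2
  have h3 := bS_add K G (prY Y P') (mc K (Bm D m)) (prS s D'.g) hs' ν hν i
  rw [tw_trivS G (Bm D m) (Bm_sq D m) D'.g D'.sq K r hr Y s ν i,
    sch_untw G (Bm D m) (Bm_sq D m) D'.g D'.sq K r hr Y s (i + 1)] at h3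
  have h4 := two_pow_cT K G (prY Y P') (prS s D'.g) hs' (fun x => D'.b x.2)
    (fun x u v => D'.b_g x.2 u v) (i + 1)
  have h5 := two_pow_cT K G (prY Y P) (prS triv D.g) hd (fun x => D.b x.2)
    (fun x u v => D.b_g x.2 u v) (i + 1)
  have h6 : bT K G (prY Y P) (prS triv D.g) ν i + cT K G (prY Y P) (prS triv D.g) (i + 1) =
      zT K G (prY Y P) (prS triv D.g) ν i + zT K G (prY Y P) (prS triv D.g) ν (i + 1) :=
    bS_add K G (prY Y P) (fun _ => (1 : Matrix Unit Unit K)) (prS triv D.g) hd ν hν i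
  rw [nn_pr] at h4 h5
  have hcard : Fintype.card (ZMod m × P) = m * Fintype.card P := by
    rw [Fintype.card_prod, ZMod.card]
  rw [hcard] at h3
  have hm : 1 ≤ m := Nat.one_le_iff_ne_zero.2 (NeZero.ne m)
  generalize Module.finrank K (SZ K G (prY Y P') (mc K (Bm D m)) (prS s D'.g) ν i) = a1 at *
  generalize Module.finrank K (SZ K G (prY Y P') (mc K (Bm D m)) (prS s D'.g) ν (i + 1)) = a2 at *
  generalize zT K G (prY Y P) (prS triv D.g) ν i = z1 at *
  generalize zT K G (prY Y P) (prS triv D.g) ν (i + 1) = z2 at *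
  generalize bT K G (prY Y P) (prS triv D.g) ν i = b at *
  generalize bT K G (prY Y P') (prS s D'.g) ν i = b' at *
  generalize cT K G (prY Y P') (prS s D'.g) (i + 1) = c' at *
  generalize cT K G (prY Y P) (prS triv D.g) (i + 1) = c at *
  generalize Fintype.card P = p at *
  generalize Fintype.card P' = p' at *
  generalize nn G Y i = n1 at *
  generalize nn G Y (i + 1) = n2 at *
  obtain ⟨k, rfl⟩ : ∃ k, m = k + 1 := ⟨m - 1, by omega⟩
  rw [Nat.add_sub_cancel] at h1 h2
  have h7 : p * c' = p' * c := by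
    have h8 : 2 ^ (i + 1) * (p * c') = 2 ^ (i + 1) * (p' * c) := by
      calc 2 ^ (i + 1) * (p * c') = p * (2 ^ (i + 1) * c') := by ring
        _ = p * (p' * n2) := by rw [h4]
        _ = p' * (p * n2) := by ring
        _ = p' * (2 ^ (i + 1) * c) := by rw [h5]
        _ = _ := by ring
    exact Nat.eq_of_mul_eq_mul_left (by positivity) h8
  have h9 : (k + 1) * p * b' + (k + 1) * (p' * c) ≤
      (n1 + n2) * p * p' + k * p' * (b + c) := by
    calc (k + 1) * p * b' + (k + 1) * (p' * c) = (k + 1) * p * b' + (k + 1) * p * c' := by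
          rw [← h7]; ring
      _ = a1 + a2 := h3
      _ ≤ (p' * n1 * p + k * (p' * z1)) + (p' * n2 * p + k * (p' * z2)) := add_le_add h1 h2
      _ = (n1 + n2) * p * p' + k * p' * (z1 + z2) := by ring
      _ = (n1 + n2) * p * p' + k * p' * (b + c) := by rw [h6]
  nlinarith [Nat.zero_le (p' * b), Nat.zero_le (p' * c)]

end Pool.Agent.H19.LG
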