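import Pool.Agent.H19.LG.Defs

/-! # Project LG: Mod -/

set_option autoImplicit false
set_option linter.unusedSectionVars false

open Finset Filter Topology

namespace Pool.Agent.H19.LG

open Pool.Agent.H19.Cub Pool.Agent.H4.Singer Pool.Agent.H85.Fold Pool.Agent.H85.Fold2

section
variable {V : Type} [DecidableEq V] {G : SimpleGraph V} {P : Type} [Group P] [Fintype P]
  [DecidableEq P] (D : BG G P) (m : ℕ) [NeZero m]

/-- the action of the matrix on functions -/
private theorem lgMod_mul (v : V) (f : ZMod m × P → ℤ) (j : ZMod m) (p : P) :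
    (Bm D m v).mulVec f (j, p) = f (j, p * D.g v) +
      sgn (D.b p v) * (f (j + 1, p) + f (j + 1, p * D.g v)) := by
  unfold Bm Matrix.mulVec dotProduct
  simp only [Matrix.of_apply, add_mul, mul_add, sum_add_distrib, ite_mul, one_mul, zero_mul, mul_ite, mul_one, mul_zero, sum_ite_eq',
    mem_univ, if_true]

theorem mulVec_Bm (K : Type) [Field K] (v : V) (f : ZMod m × P → K) (j : ZMod m) (p : P) :
    (mc K (Bm D m) v).mulVec f (j, p) = f (j, p * D.g v) +
      (sgn (D.b p v) : K) * (f (j + 1, p) + f (j + 1, p * D.g v)) := by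
  unfold mc Bm Matrix.mulVec dotProduct
  simp only [Matrix.map_apply, Matrix.of_apply, Int.cast_add, Int.cast_ite, Int.cast_one, Int.cast_zero, add_mul, mul_add,
    sum_add_distrib, ite_mul, one_mul, zero_mul, mul_ite, mul_one, mul_zero, sum_ite_eq', mem_univ, if_true]

private theorem lgMod_sgn_not (b : Bool) : sgn (!b) = -sgn b := by
  cases b <;> simp [sgn]

theorem Bm_sq (v : V) : Bm D m v * Bm D m v = 1 := by
  have key : ∀ f : ZMod m × P → ℤ, (Bm D m v).mulVec ((Bm D m v).mulVec f) = f := by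
    intro f
    funext x
    obtain ⟨j, p⟩ := x
    have hg : p * D.g v * D.g v = p := by rw [mul_assoc, D.sq, mul_one]
    have hb : sgn (D.b (p * D.g v) v) = -sgn (D.b p v) := by
      rw [D.b_g, if_pos rfl, lgMod_sgn_not]
    rw [lgMod_mul, lgMod_mul, lgMod_mul, lgMod_mul, hg, hb]
    ring
  refine Matrix.ext_of_mulVec_single fun i => ?_
  rw [← Matrix.mulVec_mulVec, key, Matrix.one_mulVec]

theorem Bm_comm (u v : V) (h : G.Adj u v) : Bm D m u * Bm D m v = Bm D m v * Bm D m u := by
  have huv : u ≠ v := h.ne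
  have key : ∀ f : ZMod m × P → ℤ, (Bm D m u).mulVec ((Bm D m v).mulVec f) =
      (Bm D m v).mulVec ((Bm D m u).mulVec f) := by
    intro f
    funext x
    obtain ⟨j, p⟩ := x
    have hg : p * D.g v * D.g u = p * D.g u * D.g v := by
      rw [mul_assoc, mul_assoc, D.comm u v h]
    have hb1 : D.b (p * D.g u) v = D.b p v := by rw [D.b_g, if_neg huv]
    have hb2 : D.b (p * D.g v) u = D.b p u := by rw [D.b_g, if_neg huv.symm]
    rw [lgMod_mul, lgMod_mul, lgMod_mul, lgMod_mul, lgMod_mul, lgMod_mul, lgMod_mul, lgMod_mul, hb1, hb2, hg]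
    ring
  refine Matrix.ext_of_mulVec_single fun i => ?_
  rw [← Matrix.mulVec_mulVec, key, Matrix.mulVec_mulVec]
end

end Pool.Agent.H19.LG
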