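import Pool.Agent.H19.LG.Defs

/-! # Project LG: Shift -/

set_option autoImplicit false
set_option linter.unusedSectionVars false

open Finset Filter Topology

namespace Pool.Agent.H19.LG

open Pool.Agent.H19.Cub Pool.Agent.H4.Singer Pool.Agent.H85.Fold Pool.Agent.H85.Fold2

private theorem lgShift_step {K V G : Type} [Field K] [AddCommGroup V] [Module K V]
    [FiniteDimensional K V] [AddCommGroup G] [Module K G] [FiniteDimensional K G]
    (W : Submodule K V) (f : V →ₗ[K] G) (P : Submodule K G) (h : ∀ z ∈ W, f z ∈ P) :
    Module.finrank K W ≤ Module.finrank K P +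
      Module.finrank K (W ⊓ LinearMap.ker f : Submodule K V) := by
  have h1 := LinearMap.finrank_range_add_finrank_ker (f.domRestrict W)
  have h2 : Module.finrank K (LinearMap.range (f.domRestrict W)) ≤ Module.finrank K P := by
    apply Submodule.finrank_mono
    rintro _ ⟨z, rfl⟩
    exact h z.1 z.2
  have h3 : Module.finrank K (LinearMap.ker (f.domRestrict W)) =
      Module.finrank K (W ⊓ LinearMap.ker f : Submodule K V) := by
    have h4 : LinearMap.ker (f.domRestrict W) = (LinearMap.ker f).comap W.subtype := by
      ext z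
      simp [LinearMap.mem_ker]
    rw [h4, ← Submodule.map_comap_subtype, Submodule.finrank_map_subtype_eq]
  omega

theorem shift_le {K E F : Type} [Field K] [AddCommGroup E] [Module K E] [FiniteDimensional K E]
    [AddCommGroup F] [Module K F] (A₀ A₁ : E →ₗ[K] F) (m : ℕ) [NeZero m]
    (W : Submodule K (ZMod m → E)) (hW : ∀ z ∈ W, ∀ j, A₀ (z (j + 1)) + A₁ (z j) = 0) :
    Module.finrank K W ≤ Module.finrank K E + (m - 1) * Module.finrank K (LinearMap.ker A₀) := by
  classical
  have hm : 0 < m := Nat.pos_of_ne_zero (NeZero.ne m)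
  have hfin : Finite (ZMod m) := inferInstance
  have hfd : FiniteDimensional K (ZMod m → E) := inferInstance
  have key : ∀ k : ℕ, ∃ U : Submodule K (ZMod m → E), U ≤ W ∧
      (∀ z ∈ U, ∀ i : ℕ, i ≤ k → z (i : ZMod m) = 0) ∧
      Module.finrank K W ≤ Module.finrank K E + k * Module.finrank K (LinearMap.ker A₀) +
        Module.finrank K U := by
    intro k
    induction k with
    | zero =>
      refine ⟨W ⊓ LinearMap.ker (LinearMap.proj (R := K) (φ := fun _ : ZMod m => E)
        ((0 : ℕ) : ZMod m)), inf_le_left, ?_, ?_⟩
      · intro z hz i hi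
        obtain rfl : i = 0 := by omega
        exact LinearMap.mem_ker.1 hz.2
      · have h := lgShift_step W (LinearMap.proj (R := K) (φ := fun _ : ZMod m => E)
          ((0 : ℕ) : ZMod m)) ⊤ (fun z _ => Submodule.mem_top)
        rw [finrank_top] at h
        omega
    | succ k ih =>
      obtain ⟨U, hUW, hU, hle⟩ := ih
      refine ⟨U ⊓ LinearMap.ker (LinearMap.proj (R := K) (φ := fun _ : ZMod m => E)
        ((k + 1 : ℕ) : ZMod m)), inf_le_left.trans hUW, ?_, ?_⟩
      · intro z hz i hi
        rcases Nat.lt_or_ge i (k + 1) with h | h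
        · exact hU z hz.1 i (by omega)
        · obtain rfl : i = k + 1 := by omega
          exact LinearMap.mem_ker.1 hz.2
      · have h := lgShift_step U (LinearMap.proj (R := K) (φ := fun _ : ZMod m => E)
          ((k + 1 : ℕ) : ZMod m)) (LinearMap.ker A₀) (fun z hz => by
            have h1 := hW z (hUW hz) (k : ZMod m)
            rw [hU z hz k le_rfl, map_zero, add_zero] at h1
            rw [LinearMap.mem_ker, LinearMap.proj_apply]
            have h2 : ((k + 1 : ℕ) : ZMod m) = (k : ZMod m) + 1 := by push_cast; rfl
            rw [h2]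
            exact h1)
        have h3 : (k + 1) * Module.finrank K (LinearMap.ker A₀) =
          k * Module.finrank K (LinearMap.ker A₀) + Module.finrank K (LinearMap.ker A₀) := by ring
        omega
  obtain ⟨U, -, hU, hle⟩ := key (m - 1)
  have hU0 : U = ⊥ := by
    rw [Submodule.eq_bot_iff]
    intro z hz
    funext j
    have h := hU z hz j.val (by have := ZMod.val_lt j; omega)
    rw [ZMod.natCast_zmod_val] at h
    exact h
  rw [hU0, finrank_bot] at hle
  omega

end Pool.Agent.H19.LG
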