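import Pool.Agent.H19.LG.Defs
import Pool.Agent.H19.LG.Mod
import Pool.Agent.H19.LG.Shift
/-! # Project LG: CycBound -/

set_option autoImplicit false
set_option linter.unusedSectionVars false

open Finset Filter Topology

namespace Pool.Agent.H19.LG

open Pool.Agent.H19.Cub Pool.Agent.H4.Singer Pool.Agent.H85.Fold Pool.Agent.H85.Fold2

section lgCycBound

variable {V : Type} [DecidableEq V] [Fintype V] (K : Type) [Field K] (G : SimpleGraph V)
  (P : Type) {X : Type} (Y : X → Finset V) (i : ℕ)

open Classical in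
/-- extension by zero -/
private noncomputable def lgCycBound_ext :
    (RS G Y i × P → K) →ₗ[K] (Finset V → X × P → Unit → K) where
  toFun y σ x _ := if h : σ ⊆ Y x.1 ∧ G.IsClique (σ : Set V) ∧ σ.card = i then
    y (⟨(x.1, σ), h⟩, x.2) else 0
  map_add' a b := by
    funext σ x u
    simp only [Pi.add_apply]
    split_ifs <;> simp
  map_smul' c a := by
    funext σ x u
    simp only [Pi.smul_apply, RingHom.id_apply]
    split_ifs <;> simp

private theorem lgCycBound_ext_inj : Function.Injective (lgCycBound_ext K G P Y i) := by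
  intro a b hab
  funext ⟨r, p⟩
  have h := congrFun (congrFun (congrFun hab r.1.2) (r.1.1, p)) ()
  simp only [lgCycBound_ext, LinearMap.coe_mk, AddHom.coe_mk] at h
  rw [dif_pos r.2, dif_pos r.2] at h
  exact h

private theorem lgCycBound_ext_supp (y : RS G Y i × P → K) (σ : Finset V) (x : X × P)
    (h : lgCycBound_ext K G P Y i y σ x ≠ 0) : σ ⊆ Y x.1 ∧ Cl G σ ∧ σ.card = i := by
  by_contra h0
  apply h
  funext u
  simp only [lgCycBound_ext, LinearMap.coe_mk, AddHom.coe_mk]
  rw [dif_neg]
  · rfl
  · rintro ⟨h1, h2, h3⟩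
    exact h0 ⟨h1, fun u hu v hv huv => h2 hu hv huv, h3⟩

/-- the successive values -/
private def lgCycBound_val (m : ℕ) :
    (Finset V → X → ZMod m × P → K) →ₗ[K] (ZMod m → (RS G Y i × P → K)) where
  toFun f j r := f r.1.1.2 r.1.1.1 (j, r.2)
  map_add' _ _ := rfl
  map_smul' _ _ := rfl

private theorem lgCycBound_ext_val (m : ℕ) (f : Finset V → X → ZMod m × P → K)
    (hf : ∀ σ x, f σ x ≠ 0 → σ ⊆ Y x ∧ Cl G σ ∧ σ.card = i) (j : ZMod m) (σ : Finset V)
    (x : X × P) (u : Unit) :
    lgCycBound_ext K G P Y i (lgCycBound_val K G P Y i m f j) σ x u = f σ x.1 (j, x.2) := by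
  simp only [lgCycBound_ext, lgCycBound_val, LinearMap.coe_mk, AddHom.coe_mk]
  split_ifs with h
  · rfl
  · by_contra h0
    apply h
    obtain ⟨h1, h2, h3⟩ := hf σ x.1 fun h4 => h0 (by rw [h4]; rfl)
    exact ⟨h1, fun u hu v hv huv => h2 u hu v hv huv, h3⟩

variable [Group P] [Fintype P] [DecidableEq P] (D : BG G P) (s : V → X → X) (ν : V → ℕ)

private noncomputable def lgCycBound_A₀ : (RS G Y i × P → K) →ₗ[K]
    ((Finset V → V → X × P → K) × (Finset V → X × P → Unit → K)) where
  toFun y := (fun σ v x => if v ∈ σ then (sgn (D.b x.2 v) : K) *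
      (lgCycBound_ext K G P Y i y σ x () + lgCycBound_ext K G P Y i y σ (x.1, x.2 * D.g v) ())
      else 0, tdl K ν (lgCycBound_ext K G P Y i y))
  map_add' a b := by
    rw [map_add, map_add]
    refine Prod.ext ?_ rfl
    funext σ v x
    simp only [Pi.add_apply, Prod.fst_add]
    split_ifs
    · ring
    · simp
  map_smul' c a := by
    rw [map_smul, map_smul]
    refine Prod.ext ?_ rfl
    funext σ v x
    simp only [Pi.smul_apply, Prod.smul_fst, RingHom.id_apply, smul_eq_mul]
    split_ifs
    · ring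
    · simp

private noncomputable def lgCycBound_A₁ : (RS G Y i × P → K) →ₗ[K]
    ((Finset V → V → X × P → K) × (Finset V → X × P → Unit → K)) where
  toFun y := (fun σ v x => if v ∈ σ then
      (lgCycBound_ext K G P Y i y σ (s v x.1, x.2) () +
        lgCycBound_ext K G P Y i y σ (x.1, x.2 * D.g v) ())
      else 0, 0)
  map_add' a b := by
    rw [map_add]
    refine Prod.ext ?_ (by simp)
    funext σ v x
    simp only [Pi.add_apply, Prod.fst_add]
    split_ifs
    · ring
    · simp
  map_smul' c a := by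
    rw [map_smul]
    refine Prod.ext ?_ (by simp)
    funext σ v x
    simp only [Pi.smul_apply, Prod.smul_fst, RingHom.id_apply, smul_eq_mul]
    split_ifs
    · ring
    · simp

end lgCycBound

theorem cyc_bound {V : Type} [DecidableEq V] [Fintype V] (K : Type) [Field K]
    {G : SimpleGraph V} {P : Type} [Group P] [Fintype P] [DecidableEq P] (D : BG G P) (m : ℕ)
    [NeZero m] {X : Type} [Fintype X] (Y : X → Finset V) (s : V → X → X) (hs : IsSpec G Y s)
    (ν : V → ℕ) (i : ℕ) :
    Module.finrank K (SZ K G Y (mc K (Bm D m)) s ν i) ≤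
      nn G Y i * Fintype.card P + (m - 1) * zT K G (prY Y P) (prS triv D.g) ν i := by
  classical
  have hfin : Finite (ZMod m) := inferInstance
  set Φ := lgCycBound_val K G P Y i m with hΦ
  set S := SZ K G Y (mc K (Bm D m)) s ν i with hS
  have hval : ∀ f ∈ S, ∀ j σ x u, lgCycBound_ext K G P Y i (Φ f j) σ x u = f σ x.1 (j, x.2) :=
    fun f hf j σ x u => lgCycBound_ext_val K G P Y i m f hf.1.1 j σ x u
  -- the dimension of the image
  have h1 : Module.finrank K S ≤ Module.finrank K (S.map Φ) := by
    refine LinearMap.finrank_le_finrank_of_injective (f := Φ.restrict (p := S) (q := S.map Φ)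
      fun f hf => Submodule.mem_map_of_mem hf) ?_
    rintro ⟨f, hf⟩ ⟨g, hg⟩ hfg
    apply Subtype.ext
    have h2 : Φ f = Φ g := congrArg Subtype.val hfg
    funext σ x ⟨j, p⟩
    have h3 := hval f hf j σ (x, p) ()
    have h4 := hval g hg j σ (x, p) ()
    rw [h2, h4] at h3
    exact h3.symm
  have h2 := shift_le (lgCycBound_A₀ K G P Y i D ν) (lgCycBound_A₁ K G P Y i D s) m (S.map Φ) (by
    rintro _ ⟨f, hf, rfl⟩ j
    refine Prod.ext ?_ ?_
    · funext σ v x
      simp only [lgCycBound_A₀, lgCycBound_A₁, LinearMap.coe_mk, AddHom.coe_mk, Prod.fst_add,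
        Pi.add_apply, Prod.fst_zero, Pi.zero_apply]
      by_cases hv : v ∈ σ
      · rw [if_pos hv, if_pos hv, hval f hf, hval f hf, hval f hf, hval f hf]
        have h3 := congrFun (hf.1.2 σ v hv x.1) (j, x.2)
        rw [Pi.neg_apply, mulVec_Bm] at h3
        simp only at h3 ⊢
        rw [h3]
        ring
      · rw [if_neg hv, if_neg hv, add_zero]
    · simp only [lgCycBound_A₀, lgCycBound_A₁, LinearMap.coe_mk, AddHom.coe_mk, Prod.snd_add,
        add_zero, Prod.snd_zero]
      have h3 : tdl K ν f = 0 := hf.2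
      funext τ x u
      have h4 := congrFun (congrFun (congrFun h3 τ) x.1) (j + 1, x.2)
      simp only [tdl, LinearMap.coe_mk, AddHom.coe_mk, Finset.sum_apply, Pi.smul_apply] at h4 ⊢
      refine Eq.trans (Finset.sum_congr rfl fun v _ => ?_) h4
      rw [hval f hf])
  have h3 : Module.finrank K (RS G Y i × P → K) = nn G Y i * Fintype.card P := by
    rw [Module.finrank_fintype_fun_eq_card, Fintype.card_prod]
    rfl
  have h4 : Module.finrank K (LinearMap.ker (lgCycBound_A₀ K G P Y i D ν)) ≤
      zT K G (prY Y P) (prS triv D.g) ν i := by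
    unfold zT
    refine LinearMap.finrank_le_finrank_of_injective
      (f := (lgCycBound_ext K G P Y i).restrict
        (p := LinearMap.ker (lgCycBound_A₀ K G P Y i D ν))
        (q := SZ K G (prY Y P) (fun _ => (1 : Matrix Unit Unit K)) (prS triv D.g) ν i) ?_) ?_
    · intro y hy
      have h5 : lgCycBound_A₀ K G P Y i D ν y = 0 := hy
      refine ⟨⟨fun σ x h => lgCycBound_ext_supp K G P Y i y σ x h, fun σ v hv x => ?_⟩, ?_⟩
      · have h6 := congrFun (congrFun (congrFun (congrArg Prod.fst h5) σ) v) x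
        simp only [lgCycBound_A₀, LinearMap.coe_mk, AddHom.coe_mk, if_pos hv, Prod.fst_zero,
          Pi.zero_apply] at h6
        have h7 : (sgn (D.b x.2 v) : K) ≠ 0 := by
          unfold sgn
          split_ifs <;> simp
        have h8 := (mul_eq_zero.1 h6).resolve_left h7
        rw [Matrix.one_mulVec]
        funext u
        rw [Pi.neg_apply]
        exact eq_neg_of_add_eq_zero_right h8
      · exact congrArg Prod.snd h5
    · rintro ⟨a, ha⟩ ⟨b, hb⟩ hab
      apply Subtype.ext
      exact lgCycBound_ext_inj K G P Y i (congrArg Subtype.val hab)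
  calc Module.finrank K S ≤ Module.finrank K (S.map Φ) := h1
    _ ≤ _ := h2
    _ ≤ _ := by
      rw [h3]
      exact Nat.add_le_add_left (Nat.mul_le_mul_left _ h4) _

end Pool.Agent.H19.LG
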