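import Pool.Agent.H19.Cub.TrivS
import Pool.Agent.H19.Cub.CmpS
import Pool.Agent.H19.Cub.HInf
import Pool.Agent.H19.Cub.HFin
import Pool.Agent.H19.Cub.Compl

/-!
# Project LG: from the links to the cube complex, definitions

`BG`: groups with marked involutions and bits; `Bm`: the matrices `r_v = R_v + T N_v` on the functions on
`ℤ/m × P`, `(R_v f)(j, p) = f (j, p g_v)`, `(T N_v f)(j, p) = ± (f (j + 1, p) + f (j + 1, p g_v))`; the sign is
given by the bit of `p` at `v`. `star Q x`: the one-vertex complex with the labels of `Q` at `x`.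
-/

set_option autoImplicit false
set_option linter.unusedSectionVars false

open Finset

namespace Pool.Agent.H19.LG

open Pool.Agent.H19.Cub Pool.Agent.H4.Singer Pool.Agent.H85.Fold Pool.Agent.H85.Fold2

section

variable {V : Type} [DecidableEq V]

/-- a group with marked involutions `g v`, which commute for the edges, and bits -/
structure BG (G : SimpleGraph V) (P : Type) [Group P] where
  /-- the involutions -/
  g : V → P
  sq : ∀ v, g v * g v = 1
  comm : ∀ u v, G.Adj u v → g u * g v = g v * g u
  /-- the bits -/
  b : P → V → Bool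
  b_g : ∀ p u v, b (p * g u) v = if u = v then !(b p v) else b p v

/-- the sign of a bit -/
def sgn (b : Bool) : ℤ := if b then -1 else 1

/-- the matrices `r_v = R_v + T N_v` -/
def Bm {G : SimpleGraph V} {P : Type} [Group P] [DecidableEq P] (D : BG G P) (m : ℕ) (v : V) :
    Matrix (ZMod m × P) (ZMod m × P) ℤ :=
  Matrix.of fun x y => (if y = (x.1, x.2 * D.g v) then 1 else 0) +
    sgn (D.b x.2 v) * ((if y = (x.1 + 1, x.2) then 1 else 0) +
      (if y = (x.1 + 1, x.2 * D.g v) then 1 else 0))

/-- the identity as an action of the labels -/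
def triv {Ω : Type} (_ : V) (x : Ω) : Ω := x

theorem isSpec_triv {Ω : Type} (G : SimpleGraph V) (Y : Ω → Finset V) : IsSpec G Y triv :=
  ⟨fun _ _ => rfl, fun _ _ _ _ => rfl, fun _ _ h => h, fun _ _ _ _ h _ => h⟩

end

section

variable {V : Type} [DecidableEq V] [Fintype V] (K : Type) [Field K]

/-- dimension of the untwisted cycles -/
noncomputable def zT (G : SimpleGraph V) {X : Type} (Y : X → Finset V) (s : V → X → X)
    (ν : V → ℕ) (i : ℕ) : ℕ :=
  Module.finrank K (SZ K G Y (fun _ => (1 : Matrix Unit Unit K)) s ν i)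

/-- dimension of the untwisted chains -/
noncomputable def cT (G : SimpleGraph V) {X : Type} (Y : X → Finset V) (s : V → X → X)
    (i : ℕ) : ℕ :=
  Module.finrank K (SCh K G Y (fun _ => (1 : Matrix Unit Unit K)) s i)

end

/-- the number of the pairs of a point `x` and a clique of labels at `x` with `i` elements -/
noncomputable def nn {V : Type} [DecidableEq V] [Fintype V] (G : SimpleGraph V) {Ω : Type}
    [Fintype Ω] (Y : Ω → Finset V) (i : ℕ) : ℕ := Fintype.card (RS G Y i)

/-- the one-vertex complex with the labels of `Q` at `x` -/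
def star {V X : Type} [DecidableEq V] (Q : CubeComplex V X) (x : X) : CubeComplex V Unit where
  graph := Q.graph
  lab _ := Q.lab x
  nb _ _ := ()
  lab_nb _ _ h := h
  nb_nb _ _ _ := rfl
  lab_adj _ _ _ _ h _ := h
  nb_comm _ _ _ _ _ _ := rfl

end Pool.Agent.H19.LG
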