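import Pool.Agent.H19.LG.Defs

/-! # Project LG: HarmZero -/

set_option autoImplicit false
set_option linter.unusedSectionVars false

open Finset Filter Topology

namespace Pool.Agent.H19.LG

open Pool.Agent.H19.Cub Pool.Agent.H4.Singer Pool.Agent.H85.Fold Pool.Agent.H85.Fold2

theorem harm_zero {V X : Type} [DecidableEq V] [Fintype V] (C : CubeComplex V X) (i : ℕ)
    (h : L2HomologyZero C i) (ν : V → ℕ) (hν : Function.Injective ν) (f : Finset V → X → ℂ)
    (hf : IsHarmS C.graph C.lab C.cs ν i f) : f = 0 := by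
  classical
  obtain ⟨fE, hfE⟩ : ∃ fE : lp (fun _ : Finset V × X => ℂ) 2, ∀ σ x, fE (σ, x) = f σ x :=
    ⟨⟨fun p => f p.1 p.2, l2h_prod f hf.chain.l2⟩, fun _ _ => rfl⟩
  have key : ∀ ε : ℝ, 0 < ε → ‖fE‖ ^ 2 < ε := by
    intro ε hε
    obtain ⟨y, hy, hye⟩ := h ν hν f ((C.isL2_iff i f).2 hf.chain) hf.cyc ε hε
    have hyS := (C.isL2_iff (i + 1) y).1 hy
    have hbl : ∀ τ, Summable fun x => ‖bdry ν y τ x‖ ^ 2 := fun τ =>
      l2h_sum _ _ fun v _ => l2h_mul _ (hyS.l2 (insert v τ))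
    obtain ⟨bE, hbE⟩ : ∃ bE : lp (fun _ : Finset V × X => ℂ) 2,
        ∀ σ x, bE (σ, x) = bdry ν y σ x :=
      ⟨⟨fun p => bdry ν y p.1 p.2, l2h_prod (bdry ν y) hbl⟩, fun _ _ => rfl⟩
    have hin : inner ℂ fE bE = 0 := by
      rw [l2h_inner]
      have hadj := adj_identity C.cs C.isSpec.inv ν f y hf.chain.l2 hyS.l2 hyS.anti
      have e1 : ∑ τ : Finset V, ∑' x, (starRingEnd ℂ) (fE (τ, x)) * bE (τ, x) =
          ∑ τ : Finset V, ∑' x, (starRingEnd ℂ) (f τ x) *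
            (∑ v ∈ τᶜ, (-1 : ℂ) ^ (τ.filter fun u => ν u < ν v).card * y (insert v τ) x) := by
        refine Finset.sum_congr rfl fun τ _ => tsum_congr fun x => ?_
        rw [hfE, hbE]
        rfl
      rw [e1, hadj]
      have e2 : ∀ (ρ : Finset V) (x : X), (starRingEnd ℂ)
          (∑ v ∈ ρ, (-1 : ℂ) ^ ((ρ.erase v).filter fun u => ν u < ν v).card *
            (f (ρ.erase v) x - f (ρ.erase v) (C.cs v x))) * y ρ x = 0 := by
        intro ρ x
        by_cases h0 : y ρ x = 0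
        · rw [h0, mul_zero]
        · obtain ⟨h1, h2, h3⟩ := hyS.supp ρ x h0
          rw [hf.cocyc ρ x h1 h2 h3, map_zero, zero_mul]
      simp only [e2, tsum_zero, Finset.sum_const_zero, mul_zero]
    have hsub := norm_sub_sq (𝕜 := ℂ) fE bE
    rw [hin] at hsub
    simp only [map_zero, mul_zero, sub_zero] at hsub
    have hn := l2h_norm (fE - bE)
    have e3 : ∑ σ, ∑' x, ‖(fE - bE) (σ, x)‖ ^ 2 = ∑ σ, ∑' x, ‖f σ x - bdry ν y σ x‖ ^ 2 := by
      refine Finset.sum_congr rfl fun σ _ => tsum_congr fun x => ?_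
      have e4 : (fE - bE) (σ, x) = fE (σ, x) - bE (σ, x) := rfl
      rw [e4, hfE, hbE]
    rw [e3] at hn
    have hb := sq_nonneg ‖bE‖
    linarith
  have h0 : ‖fE‖ ^ 2 ≤ 0 := le_of_forall_pos_le_add fun ε hε => by
    rw [zero_add]
    exact (key ε hε).le
  have h1 : fE = 0 := by
    have h2 : ‖fE‖ = 0 := by
      have := sq_nonneg ‖fE‖
      exact pow_eq_zero_iff two_ne_zero |>.1 (le_antisymm h0 this)
    exact norm_eq_zero.1 h2
  funext σ x
  rw [← hfE, h1]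
  rfl

end Pool.Agent.H19.LG
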