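import Pool.Agent.H19.LG.Defs
import Pool.Agent.H19.LG.HarmZero
import Pool.Agent.H19.Cub.Transf
/-! # Project LG: StarZero -/

set_option autoImplicit false
set_option linter.unusedSectionVars false

open Finset Filter Topology

namespace Pool.Agent.H19.LG

open Pool.Agent.H19.Cub Pool.Agent.H4.Singer Pool.Agent.H85.Fold Pool.Agent.H85.Fold2

/-- the point of `X × W` of a vertex of the cover of the star -/
private noncomputable def lgStarZero_pt {V X : Type} [DecidableEq V] [Fintype V]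
    (Q : CubeComplex V X) (x₀ : X) (w₀ : RGrp Q.graph) (c : (star Q x₀).Cover ()) :
    X × RGrp Q.graph :=
  (x₀, @HMul.hMul (RGrp Q.graph) (RGrp Q.graph) (RGrp Q.graph) _ w₀ ((star Q x₀).emb () c).2)

private theorem lgStarZero_cs {V X : Type} [DecidableEq V] [Fintype V] (Q : CubeComplex V X)
    (x₀ : X) (w₀ : RGrp Q.graph) (v : V) (c : (star Q x₀).Cover ()) (hv : v ∈ Q.lab x₀) :
    lgStarZero_pt Q x₀ w₀ (((star Q x₀).cover ()).cs v c) =
      prS triv (gen Q.graph) v (lgStarZero_pt Q x₀ w₀ c) := by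
  have h1 := congrArg Prod.snd ((star Q x₀).emb_cs () v c hv)
  have h2 : ((star Q x₀).emb () (((star Q x₀).cover ()).cs v c)).2 =
      @HMul.hMul (RGrp Q.graph) (RGrp Q.graph) (RGrp Q.graph) _
        ((star Q x₀).emb () c).2 (gen Q.graph v) := h1
  refine Prod.ext rfl ?_
  show @HMul.hMul (RGrp Q.graph) (RGrp Q.graph) (RGrp Q.graph) _ w₀
      ((star Q x₀).emb () (((star Q x₀).cover ()).cs v c)).2 =
    (@HMul.hMul (RGrp Q.graph) (RGrp Q.graph) (RGrp Q.graph) _ w₀
      ((star Q x₀).emb () c).2) * gen Q.graph v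
  rw [h2]
  exact (mul_assoc _ _ _).symm

private theorem lgStarZero_inj {V X : Type} [DecidableEq V] [Fintype V] (Q : CubeComplex V X)
    (x₀ : X) (w₀ : RGrp Q.graph) : Function.Injective (lgStarZero_pt Q x₀ w₀) := by
  intro c c' hcc
  have h1 : @HMul.hMul (RGrp Q.graph) (RGrp Q.graph) (RGrp Q.graph) _ w₀
      ((star Q x₀).emb () c).2 =
    @HMul.hMul (RGrp Q.graph) (RGrp Q.graph) (RGrp Q.graph) _ w₀
      ((star Q x₀).emb () c').2 := congrArg Prod.snd hcc
  have h2 : @Eq (RGrp Q.graph) ((star Q x₀).emb () c).2 ((star Q x₀).emb () c').2 :=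
    @mul_left_cancel (RGrp Q.graph) _ _ w₀ _ _ h1
  exact (star Q x₀).emb_injective () (Prod.ext rfl h2)

private theorem lgStarZero_base {V X : Type} [DecidableEq V] [Fintype V] (Q : CubeComplex V X)
    (x₀ : X) (w₀ : RGrp Q.graph) :
    lgStarZero_pt Q x₀ w₀ (Quot.mk _ ⟨[], trivial⟩) = (x₀, w₀) := by
  refine Prod.ext rfl ?_
  show w₀ * (1 : RGrp Q.graph) = w₀
  exact mul_one w₀

theorem star_zero {V X : Type} [DecidableEq V] [Fintype V] (Q : CubeComplex V X) (i : ℕ)
    (h : ∀ x, L2HomologyZero ((star Q x).cover ()) i) (ν : V → ℕ) (hν : Function.Injective ν)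
    (f : Finset V → X × RGrp Q.graph → ℂ)
    (hf : IsHarmS Q.graph (prY Q.lab (RGrp Q.graph)) (prS triv (gen Q.graph)) ν i f) : f = 0 := by
  classical
  funext σ₀ y
  obtain ⟨x₀, w₀⟩ := y
  obtain ⟨F, hF⟩ : ∃ F : Finset V → (star Q x₀).Cover () → ℂ,
      F = fun σ c => f σ (lgStarZero_pt Q x₀ w₀ c) := ⟨_, rfl⟩
  have hF1 : ∀ σ c, F σ c = f σ (lgStarZero_pt Q x₀ w₀ c) := by
    intro σ c
    rw [hF]
  have hcs := lgStarZero_cs Q x₀ w₀
  have hlab : ∀ c, prY Q.lab (RGrp Q.graph) (lgStarZero_pt Q x₀ w₀ c) = Q.lab x₀ := fun _ => rfl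
  have hharm : IsHarmS ((star Q x₀).cover ()).graph ((star Q x₀).cover ()).lab
      ((star Q x₀).cover ()).cs ν i F := by
    refine ⟨⟨?_, ?_, ?_⟩, ?_, ?_⟩
    · intro σ c hne
      rw [hF1] at hne
      exact hf.chain.supp σ _ hne
    · intro σ v hv c
      by_cases hσ : σ ⊆ Q.lab x₀
      · rw [hF1, hF1, hcs v c (hσ hv)]
        exact hf.chain.anti σ v hv _
      · have h1 : ∀ c, F σ c = 0 := by
          intro c
          by_contra hne
          rw [hF1] at hne
          exact hσ (hf.chain.supp σ _ hne).1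
        rw [h1, h1, neg_zero]
    · intro σ
      have h1 := (hf.chain.l2 σ).comp_injective (lgStarZero_inj Q x₀ w₀)
      refine h1.congr fun c => ?_
      rw [hF1]
      rfl
    · funext τ c
      have h1 := congrFun (congrFun hf.cyc τ) (lgStarZero_pt Q x₀ w₀ c)
      have h2 : bdry ν F τ c = bdry ν f τ (lgStarZero_pt Q x₀ w₀ c) := by
        unfold bdry
        exact Finset.sum_congr rfl fun v _ => by rw [hF1]
      rw [h2, h1]
      rfl
    · intro ρ c hρc hρ hρi
      have hρc' : ρ ⊆ Q.lab x₀ := hρc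
      have h1 := hf.cocyc ρ (lgStarZero_pt Q x₀ w₀ c) hρc' hρ hρi
      rw [← h1]
      refine Finset.sum_congr rfl fun v hv => ?_
      rw [hF1, hF1, hcs v c (hρc' hv)]
  have h0 := harm_zero ((star Q x₀).cover ()) i (h x₀) ν hν F hharm
  have h1 : F σ₀ (Quot.mk _ ⟨[], trivial⟩) = 0 := by
    rw [h0]
    rfl
  have h2 : F σ₀ (Quot.mk _ ⟨[], trivial⟩) =
      f σ₀ (lgStarZero_pt Q x₀ w₀ (Quot.mk _ ⟨[], trivial⟩)) := hF1 _ _
  rw [h1, lgStarZero_base] at h2
  exact h2.symm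

end Pool.Agent.H19.LG
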