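import Pool.Agent.H19.LG.Red
import Pool.Agent.H19.LG.StarZero

/-! # Project LG: Final

`local_global`: if the `ℓ²`-homology of the one-vertex complexes `star Q x` (right-angled Coxeter groups of the
vertex links) vanishes in degree `i`, then so does the `ℓ²`-homology of the universal cover of `Q`.
-/

set_option autoImplicit false
set_option linter.unusedSectionVars false

open Finset Filter Topology

namespace Pool.Agent.H19.LG

open Pool.Agent.H19.Cub Pool.Agent.H4.Singer Pool.Agent.H85.Fold Pool.Agent.H85.Fold2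
open Pool.Agent.H4.Atiyah

/-- **The local-to-global theorem.** -/
theorem local_global {V X : Type} [DecidableEq V] [Fintype V] [Fintype X] (Q : CubeComplex V X)
    (i : ℕ) (h : ∀ x, L2HomologyZero ((star Q x).cover ()) i) (x : X) :
    L2HomologyZero (Q.cover x) i := by
  classical
  intro ν hν z hz hdz ε hε
  have h1 : vnDim (toC (HSA Q.graph Q.lab triv ν i)) = 0 :=
    vnDim_of_l2ker _ (l2ker_of_harm Q.graph Q.lab triv (isSpec_triv _ _) ν i
      fun f hf => star_zero Q i h ν hν f hf)
  have h2 : vnDim (toC (HSA Q.graph Q.lab Q.cs ν i)) ≤ 0 :=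
    (vnDim_le_triv Q.lab Q.cs Q.isSpec ν hν i).trans_eq h1
  have h3 : ∀ f : Finset V → Q.Cover x → ℂ,
      IsHarmS Q.graph (Q.cover x).lab (Q.cover x).cs ν i f → f = 0 := fun f hf =>
    Q.harm_ext x ν i (harm_infS Q.graph Q.lab Q.cs Q.isSpec ν i
      (l2ker_trivial_of_vnDim _ h2)) f hf
  obtain ⟨y, hy, hye⟩ := hodgeS Q.graph (Q.cover x).lab (Q.cover x).cs (Q.cover x).isSpec ν hν i
    h3 z (((Q.cover x).isL2_iff i z).1 hz) hdz ε hε
  exact ⟨y, ((Q.cover x).isL2_iff (i + 1) y).2 hy, hye⟩

end Pool.Agent.H19.LG
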