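import Pool.Agent.H19.LG.Defs
import Pool.Agent.H19.Cub.Transf
/-!
# Project LG: HarmRev

The reverse of `harm_finS`. The cycles `f` which are orthogonal to the boundaries form a space of dimension at
least `bT`. For such `f` the chain `y ρ x = δ f ρ x` (`ρ` a clique of labels at `x` with `i + 1` elements) gives
`0 = ⟨f, ∂ y⟩ = ⟨δ f, y⟩ / 2 = ‖y‖² / 2` by `adj_identity`; so `f` is harmonic and lies in the left kernel of
the matrix.
-/

set_option autoImplicit false
set_option linter.unusedSectionVars false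

open Finset Filter Topology

namespace Pool.Agent.H19.LG

open Pool.Agent.H19.Cub Pool.Agent.H4.Singer Pool.Agent.H85.Fold Pool.Agent.H85.Fold2
open Pool.Agent.H4.Atiyah

section

variable {V : Type} [Fintype V] [DecidableEq V]

private theorem lgHarmRev_tdl_app {Ω : Type} (ν : V → ℕ) (f : Finset V → Ω → Unit → ℂ)
    (τ : Finset V) (ω : Ω) (u : Unit) : tdl ℂ ν f τ ω u =
      ∑ v ∈ τᶜ, (sg ν v τ : ℂ) * f (insert v τ) ω u := by
  show (∑ v ∈ τᶜ, (sg ν v τ : ℂ) • f (insert v τ) ω) u = _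
  rw [Finset.sum_apply]
  exact Finset.sum_congr rfl fun v _ => rfl

/-- the coboundary -/
private noncomputable def lgHarmRev_cob {X : Type} (s : V → X → X) (ν : V → ℕ)
    (f : Finset V → X → ℂ) (ρ : Finset V) (x : X) : ℂ :=
  ∑ v ∈ ρ, (-1 : ℂ) ^ ((ρ.erase v).filter fun u => ν u < ν v).card *
      (f (ρ.erase v) x - f (ρ.erase v) (s v x))

private theorem lgHarmRev_cob_anti {X : Type} {G : SimpleGraph V} {Y : X → Finset V}
    {s : V → X → X} (hs : IsSpec G Y s) (ν : V → ℕ) (f : Finset V → X → ℂ)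
    (hf : ∀ σ, ∀ v ∈ σ, ∀ x, f σ (s v x) = - f σ x) (ρ : Finset V) (hρ : Cl G ρ) (u : V)
    (hu : u ∈ ρ) (x : X) : lgHarmRev_cob s ν f ρ (s u x) = - lgHarmRev_cob s ν f ρ x := by
  unfold lgHarmRev_cob
  rw [← Finset.sum_neg_distrib]
  refine Finset.sum_congr rfl fun v hv => ?_
  by_cases huv : u = v
  · subst huv
    rw [hs.inv]
    ring
  · have h1 : u ∈ ρ.erase v := Finset.mem_erase.2 ⟨huv, hu⟩
    rw [hs.comm v u (hρ v hv u hu (Ne.symm huv)), hf _ u h1, hf _ u h1]
    ring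

open Classical in
/-- the coboundary as a chain -/
private noncomputable def lgHarmRev_y {X : Type} (G : SimpleGraph V) (Y : X → Finset V)
    (s : V → X → X) (ν : V → ℕ) (i : ℕ) (f : Finset V → X → Unit → ℂ) :
    Finset V → X → Unit → ℂ := fun ρ x _ =>
  if ρ ⊆ Y x ∧ Cl G ρ ∧ ρ.card = i + 1 then lgHarmRev_cob s ν (fun σ x => f σ x ()) ρ x else 0

private theorem lgHarmRev_y_pos {X : Type} (G : SimpleGraph V) (Y : X → Finset V)
    (s : V → X → X) (ν : V → ℕ) (i : ℕ) (f : Finset V → X → Unit → ℂ) (ρ : Finset V) (x : X)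
    (u : Unit) (h : ρ ⊆ Y x ∧ Cl G ρ ∧ ρ.card = i + 1) :
    lgHarmRev_y G Y s ν i f ρ x u = lgHarmRev_cob s ν (fun σ x => f σ x ()) ρ x := by
  unfold lgHarmRev_y
  rw [if_pos h]

private theorem lgHarmRev_y_neg {X : Type} (G : SimpleGraph V) (Y : X → Finset V)
    (s : V → X → X) (ν : V → ℕ) (i : ℕ) (f : Finset V → X → Unit → ℂ) (ρ : Finset V) (x : X)
    (u : Unit) (h : ¬ (ρ ⊆ Y x ∧ Cl G ρ ∧ ρ.card = i + 1)) :
    lgHarmRev_y G Y s ν i f ρ x u = 0 := by
  unfold lgHarmRev_y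
  rw [if_neg h]

private theorem lgHarmRev_y_mem {X : Type} (G : SimpleGraph V) (Y : X → Finset V)
    (s : V → X → X) (hs : IsSpec G Y s) (ν : V → ℕ) (i : ℕ) (f : Finset V → X → Unit → ℂ)
    (hf : f ∈ SCh ℂ G Y (fun _ => (1 : Matrix Unit Unit ℂ)) s i) :
    lgHarmRev_y G Y s ν i f ∈ SCh ℂ G Y (fun _ => (1 : Matrix Unit Unit ℂ)) s (i + 1) := by
  refine ⟨fun ρ x hne => ?_, fun ρ v hv x => ?_⟩
  · by_contra hcon
    apply hne
    funext u
    exact lgHarmRev_y_neg G Y s ν i f ρ x u hcon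
  · rw [Matrix.one_mulVec]
    funext u
    rw [Pi.neg_apply]
    by_cases h : ρ ⊆ Y x ∧ Cl G ρ ∧ ρ.card = i + 1
    · rw [lgHarmRev_y_pos G Y s ν i f ρ x u h, lgHarmRev_y_pos G Y s ν i f ρ (s v x) u
        ⟨(hs.sub_iff h.2.1 hv).2 h.1, h.2⟩]
      refine lgHarmRev_cob_anti hs ν _ (fun σ w hw x => ?_) ρ h.2.1 v hv x
      have h1 := congrFun (hf.2 σ w hw x) ()
      rw [Matrix.one_mulVec] at h1
      exact h1
    · rw [lgHarmRev_y_neg G Y s ν i f ρ x u h, lgHarmRev_y_neg G Y s ν i f ρ (s v x) u, neg_zero]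
      rintro ⟨h1, h2, h3⟩
      exact h ⟨(hs.sub_iff h2 hv).1 h1, h2, h3⟩

private theorem lgHarmRev_harm {X : Type} [Fintype X] (G : SimpleGraph V) (Y : X → Finset V)
    (s : V → X → X) (hs : IsSpec G Y s) (ν : V → ℕ) (i : ℕ) (f : Finset V → X → Unit → ℂ)
    (hf : f ∈ SZ ℂ G Y (fun _ => (1 : Matrix Unit Unit ℂ)) s ν i)
    (hort : ∀ y ∈ SB ℂ G Y (fun _ => (1 : Matrix Unit Unit ℂ)) s ν i,
      ∑ τ : Finset V, ∑ x : X, (starRingEnd ℂ) (y τ x ()) * f τ x () = 0) :
    IsHarmS G Y s ν i (fun σ x => f σ x ()) := by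
  obtain ⟨hfc, hfk⟩ := hf
  have hanti : ∀ σ, ∀ v ∈ σ, ∀ x, f σ (s v x) () = - f σ x () := by
    intro σ v hv x
    have h1 := congrFun (hfc.2 σ v hv x) ()
    rw [Matrix.one_mulVec] at h1
    exact h1
  have hsupp : ∀ σ x, f σ x () ≠ 0 → σ ⊆ Y x ∧ G.IsClique (σ : Set V) ∧ σ.card = i := by
    intro σ x hne
    obtain ⟨h1, h2, h3⟩ := hfc.1 σ x (fun h0 => hne (by rw [h0]; rfl))
    exact ⟨h1, fun a ha b hb hab => h2 a ha b hb hab, h3⟩
  set y := lgHarmRev_y G Y s ν i f with hy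
  have hym := lgHarmRev_y_mem G Y s hs ν i f hfc
  have h0 := hort (tdl ℂ ν y) (Submodule.mem_map_of_mem hym)
  have h0' : ∑ τ : Finset V, ∑ x : X, (starRingEnd ℂ) (f τ x ()) * tdl ℂ ν y τ x () = 0 := by
    have h1 := congrArg (starRingEnd ℂ) h0
    rw [map_sum, map_zero] at h1
    rw [← h1]
    refine Finset.sum_congr rfl fun τ _ => ?_
    rw [map_sum]
    refine Finset.sum_congr rfl fun x _ => ?_
    rw [map_mul, Complex.conj_conj]
    ring
  have key := adj_identity s hs.inv ν (fun σ x => f σ x ()) (fun σ x => y σ x ())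
      (fun σ => (hasSum_fintype _).summable) (fun σ => (hasSum_fintype _).summable)
      (by
        intro ρ v hv x
        have h1 := congrFun (hym.2 ρ v hv x) ()
        rw [Matrix.one_mulVec] at h1
        exact h1)
  have hl : ∀ τ x, (∑ v ∈ τᶜ, (-1 : ℂ) ^ (τ.filter fun u => ν u < ν v).card *
      y (insert v τ) x ()) = tdl ℂ ν y τ x () := by
    intro τ x
    rw [lgHarmRev_tdl_app]
    refine Finset.sum_congr rfl fun v _ => ?_
    unfold sg
    push_cast
    rfl
  have hr : ∀ ρ x, (starRingEnd ℂ)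
      (∑ v ∈ ρ, (-1 : ℂ) ^ ((ρ.erase v).filter fun u => ν u < ν v).card *
        (f (ρ.erase v) x () - f (ρ.erase v) (s v x) ())) * y ρ x () =
      (starRingEnd ℂ) (y ρ x ()) * y ρ x () := by
    intro ρ x
    by_cases h : ρ ⊆ Y x ∧ Cl G ρ ∧ ρ.card = i + 1
    · rw [hy, lgHarmRev_y_pos G Y s ν i f ρ x () h]
      rfl
    · rw [hy, lgHarmRev_y_neg G Y s ν i f ρ x () h, mul_zero, mul_zero]
  simp only [hl, hr, tsum_fintype] at key
  rw [h0'] at key
  have hsq : ∀ z : ℂ, (starRingEnd ℂ) z * z = ((‖z‖ ^ 2 : ℝ) : ℂ) := by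
    intro z
    rw [mul_comm, Complex.mul_conj, Complex.normSq_eq_norm_sq]
  simp only [hsq, ← Complex.ofReal_sum] at key
  have key1 : ((∑ ρ : Finset V, ∑ x : X, ‖y ρ x ()‖ ^ 2 : ℝ) : ℂ) = 0 := by
    have h2 : (1 / 2 : ℂ) ≠ 0 := by norm_num
    rcases mul_eq_zero.1 key.symm with h3 | h3
    · exact absurd h3 h2
    · exact h3
  have key' : ∑ ρ : Finset V, ∑ x : X, ‖y ρ x ()‖ ^ 2 = 0 := by exact_mod_cast key1
  have hy0 : ∀ ρ x, y ρ x () = 0 := by
    intro ρ x
    have h1 := (Finset.sum_eq_zero_iff_of_nonneg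
      (fun τ _ => Finset.sum_nonneg fun x _ => sq_nonneg ‖y τ x ()‖)).1 key' ρ (mem_univ ρ)
    have h2 := (Finset.sum_eq_zero_iff_of_nonneg
      (fun x _ => sq_nonneg ‖y ρ x ()‖)).1 h1 x (mem_univ x)
    simpa using h2
  refine ⟨⟨hsupp, hanti, fun σ => (hasSum_fintype _).summable⟩, ?_, ?_⟩
  · funext τ x
    have h1 : tdl ℂ ν f τ x () = 0 := by
      rw [LinearMap.mem_ker.1 hfk]
      rfl
    rw [lgHarmRev_tdl_app] at h1
    rw [Pi.zero_apply, Pi.zero_apply, ← h1]
    unfold bdry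
    refine Finset.sum_congr rfl fun v _ => ?_
    unfold sg
    push_cast
    rfl
  · intro ρ x hρY hρ hρi
    have h1 := hy0 ρ x
    rw [hy, lgHarmRev_y_pos G Y s ν i f ρ x ()
      ⟨hρY, fun a ha b hb hab => hρ ha hb hab, hρi⟩] at h1
    exact h1

private theorem lgHarmRev_exists {X : Type} [Fintype X] (G : SimpleGraph V) (Y : X → Finset V)
    (s : V → X → X) (hs : IsSpec G Y s) (ν : V → ℕ) (i : ℕ) :
    ∃ H : Submodule ℂ (Finset V → X → Unit → ℂ), bT ℂ G Y s ν i ≤ Module.finrank ℂ H ∧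
      ∀ f ∈ H, IsHarmS G Y s ν i (fun σ x => f σ x ()) := by
  classical
  set Z := SZ ℂ G Y (fun _ => (1 : Matrix Unit Unit ℂ)) s ν i with hZ
  set B := SB ℂ G Y (fun _ => (1 : Matrix Unit Unit ℂ)) s ν i with hB
  let b := Module.finBasis ℂ B
  let L : Z →ₗ[ℂ] (Fin (Module.finrank ℂ B) → ℂ) :=
    { toFun := fun z j => ∑ τ : Finset V, ∑ x : X,
        (starRingEnd ℂ) ((b j : Finset V → X → Unit → ℂ) τ x ()) *
          (z : Finset V → X → Unit → ℂ) τ x ()
      map_add' := by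
        intro z w
        funext j
        simp only [Submodule.coe_add, Pi.add_apply, mul_add, Finset.sum_add_distrib]
      map_smul' := by
        intro c z
        funext j
        simp only [Submodule.coe_smul, Pi.smul_apply, smul_eq_mul, RingHom.id_apply,
          Finset.mul_sum]
        exact Finset.sum_congr rfl fun τ _ => Finset.sum_congr rfl fun x _ => by ring }
  refine ⟨(LinearMap.ker L).map Z.subtype, ?_, ?_⟩
  · have h1 : Module.finrank ℂ ((LinearMap.ker L).map Z.subtype) =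
        Module.finrank ℂ (LinearMap.ker L) :=
      (Submodule.equivMapOfInjective _ Z.injective_subtype _).finrank_eq.symm
    rw [h1]
    have h2 := LinearMap.finrank_range_add_finrank_ker L
    have h3 : Module.finrank ℂ (LinearMap.range L) ≤ Module.finrank ℂ B := by
      have h4 := Submodule.finrank_le (LinearMap.range L)
      rwa [Module.finrank_fintype_fun_eq_card, Fintype.card_fin] at h4
    show Module.finrank ℂ Z - Module.finrank ℂ B ≤ _
    omega
  · rintro f ⟨z, hz, rfl⟩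
    have hz' : ∀ j, ∑ τ : Finset V, ∑ x : X,
        (starRingEnd ℂ) ((b j : Finset V → X → Unit → ℂ) τ x ()) *
          (z : Finset V → X → Unit → ℂ) τ x () = 0 := fun j => congrFun hz j
    refine lgHarmRev_harm G Y s hs ν i _ z.2 ?_
    intro y hy
    obtain ⟨c, hc⟩ : ∃ c : Fin (Module.finrank ℂ B) → ℂ, c = fun j => b.repr ⟨y, hy⟩ j :=
      ⟨_, rfl⟩
    have h1 : ∑ j, c j • (b j : Finset V → X → Unit → ℂ) = y := by
      have h2 : ((∑ j, (b.repr ⟨y, hy⟩ j) • b j : B) : Finset V → X → Unit → ℂ) = y :=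
        congrArg (Subtype.val) (b.sum_repr ⟨y, hy⟩)
      rw [hc]
      rw [Submodule.coe_sum] at h2
      exact h2
    have h3 : ∀ τ x, y τ x () = ∑ j, c j * (b j : Finset V → X → Unit → ℂ) τ x () := by
      intro τ x
      rw [← h1]
      simp [Finset.sum_apply]
    have h4 : ∀ τ x, (starRingEnd ℂ) (y τ x ()) * (z : Finset V → X → Unit → ℂ) τ x () =
        ∑ j, (starRingEnd ℂ) (c j) *
          ((starRingEnd ℂ) ((b j : Finset V → X → Unit → ℂ) τ x ()) *
            (z : Finset V → X → Unit → ℂ) τ x ()) := by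
      intro τ x
      rw [h3, map_sum, Finset.sum_mul]
      exact Finset.sum_congr rfl fun j _ => by rw [map_mul]; ring
    have h5 : ∑ τ : Finset V, ∑ x : X,
        (starRingEnd ℂ) (y τ x ()) * (z : Finset V → X → Unit → ℂ) τ x () =
        ∑ j, (starRingEnd ℂ) (c j) * ∑ τ : Finset V, ∑ x : X,
          ((starRingEnd ℂ) ((b j : Finset V → X → Unit → ℂ) τ x ()) *
            (z : Finset V → X → Unit → ℂ) τ x ()) := by
      rw [Finset.sum_congr rfl fun τ _ => Finset.sum_congr rfl fun x _ => h4 τ x]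
      rw [Finset.sum_congr rfl fun τ _ => Finset.sum_comm, Finset.sum_comm]
      refine Finset.sum_congr rfl fun j _ => ?_
      rw [Finset.mul_sum]
      refine Finset.sum_congr rfl fun τ _ => ?_
      rw [Finset.mul_sum]
    show ∑ τ : Finset V, ∑ x : X,
        (starRingEnd ℂ) (y τ x ()) * (z : Finset V → X → Unit → ℂ) τ x () = 0
    rw [h5]
    exact Finset.sum_eq_zero fun j _ => by rw [hz' j, mul_zero]

private theorem lgHarmRev_coeff {W P : Type} [Group W] [Group P] [Fintype P] (π : W →* P)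
    (a : MonoidAlgebra ℤ W) (φ : P → ℂ) (h : P) :
    ∑ g, φ g * (MonoidAlgebra.mapDomainRingHom ℂ π
      (MonoidAlgebra.mapRingHom W (Int.castRingHom ℂ) a)).coeff (g⁻¹ * h) = gact π a φ h := by
  classical
  induction a using MonoidAlgebra.induction_linear with
  | zero => simp [gact_zero]
  | add a b ha hb =>
    rw [gact_add, ← ha, ← hb, ← Finset.sum_add_distrib]
    refine Finset.sum_congr rfl fun g _ => ?_
    rw [map_add, map_add, MonoidAlgebra.coeff_add, Finsupp.add_apply, mul_add]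
  | single g r =>
    rw [gact_single, MonoidAlgebra.mapRingHom_single, MonoidAlgebra.mapDomainRingHom_apply,
      MonoidAlgebra.mapDomain_single, Finset.sum_eq_single (h * (π g)⁻¹)]
    · rw [MonoidAlgebra.coeff_single, mul_inv_rev, inv_inv, inv_mul_cancel_right,
        Finsupp.single_eq_same]
      simp
    · intro g' _ hg'
      rw [MonoidAlgebra.coeff_single, Finsupp.single_eq_of_ne, mul_zero]
      intro he
      apply hg'
      rw [← he]
      group
    · intro hh
      exact absurd (Finset.mem_univ _) hh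

variable {Ω : Type} [Fintype Ω]

private theorem lgHarmRev_col (G : SimpleGraph V) (Y : Ω → Finset V)
    (s : V → Ω → Ω) (hs : IsSpec G Y s) (ν : V → ℕ) (i : ℕ) (P : Type) [Group P]
    (π : RGrp G →* P) (f : Finset V → Ω × P → ℂ)
    (hf : IsHarmS G (prY Y P) (prS s (fun v => π (gen G v))) ν i f) (c : CS G Y i) (h : P) :
    ∑ r : RS G Y i, gact π (HS G Y s ν i r c) (fun p => f r.1.2 (r.1.1, p)) h = 0 := by
  classical
  have hgg : ∀ v, π (gen G v) * π (gen G v) = 1 := by
    intro v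
    rw [← map_mul, gen_mul_gen, map_one]
  have hinv : ∀ v, (π (gen G v))⁻¹ = π (gen G v) := by
    intro v
    exact inv_eq_of_mul_eq_one_left (hgg v)
  obtain ⟨x, hx⟩ : ∃ x : Ω → Finset V → P → ℂ, x = fun a σ w => f σ (a, w) := ⟨_, rfl⟩
  have hxf : ∀ a σ w, f σ (a, w) = x a σ w := fun a σ w => by rw [hx]
  have hsupp : ∀ (a : Ω) (σ : Finset V),
      ¬ (σ ⊆ Y a ∧ G.IsClique (σ : Set V) ∧ σ.card = i) → x a σ = 0 := by
    intro a σ hσ
    funext w
    by_contra hne
    exact hσ (hf.chain.supp σ (a, w) (by rw [hxf]; exact hne))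
  have hgoal : ∀ r : RS G Y i, (fun p => f r.1.2 (r.1.1, p)) = x r.1.1 r.1.2 := by
    intro r
    funext p
    rw [hxf]
  simp only [hgoal]
  rcases c with ⟨q, v⟩ | ⟨a, τ⟩ | ⟨a, ρ⟩
  · by_cases hv : v ∈ q.1.2
    · rw [HS_anti G Y s hs ν i π x hsupp q v hv h, hinv]
      have h3 := hf.chain.anti q.1.2 v hv (q.1.1, h)
      have h4 : x (s v q.1.1) q.1.2 (h * π (gen G v)) = - x q.1.1 q.1.2 h := by
        rw [← hxf, ← hxf]
        exact h3
      rw [h4]
      ring
    · refine HS_zero G Y s hs ν i π x hsupp _ ⟨?_, ?_, ?_⟩ h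
      · intro q' v' h
        have h3 := Prod.mk.inj (Sum.inl.inj h)
        obtain ⟨h4, h5⟩ := h3
        rw [← h4, ← h5]
        exact hv
      · intro p h
        exact absurd h (by simp)
      · intro y ρ h
        exact absurd h (by simp)
  · rw [HS_bd G Y s hs ν i π x hsupp a τ h]
    have h3 := congrFun (congrFun hf.cyc τ) (a, h)
    rw [Pi.zero_apply, Pi.zero_apply] at h3
    rw [← h3]
    unfold bdry
    exact Finset.sum_congr rfl fun v _ => by rw [hxf]
  · by_cases hρ : ρ ⊆ Y a ∧ G.IsClique (ρ : Set V) ∧ ρ.card = i + 1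
    · rw [HS_cobd G Y s hs ν i π x hsupp a ρ hρ.1 hρ.2.1 hρ.2.2 h]
      have h3 := hf.cocyc ρ (a, h) hρ.1 hρ.2.1 hρ.2.2
      rw [← h3]
      refine Finset.sum_congr rfl fun v _ => ?_
      rw [hinv, ← hxf, ← hxf]
      rfl
    · refine HS_zero G Y s hs ν i π x hsupp _ ⟨?_, ?_, ?_⟩ h
      · intro q' v' h
        exact absurd h (by simp)
      · intro p h
        exact absurd h (by simp)
      · intro y ρ' h
        have h3 := Prod.mk.inj (Sum.inr.inj (Sum.inr.inj h))
        obtain ⟨h4, h5⟩ := h3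
        rw [← h4, ← h5]
        exact hρ

end

theorem bT_le_harm {V : Type} [DecidableEq V] [Fintype V] {Ω : Type} [Fintype Ω]
    (G : SimpleGraph V) (Y : Ω → Finset V) (s : V → Ω → Ω) (hs : IsSpec G Y s) (ν : V → ℕ)
    (hν : Function.Injective ν) (i : ℕ) (P : Type) [Group P] [Fintype P] (π : RGrp G →* P) :
    (bT ℂ G (prY Y P) (prS s (fun v => π (gen G v))) ν i : ℝ) ≤
      ((Fintype.card (RS G Y i) : ℕ) * Fintype.card P : ℝ) -
        (op ((toC (HSA G Y s ν i)).map (MonoidAlgebra.mapDomainRingHom ℂ π))).rank := by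
  classical
  set M := op ((toC (HSA G Y s ν i)).map (MonoidAlgebra.mapDomainRingHom ℂ π)) with hM
  have hgg : ∀ v, π (gen G v) * π (gen G v) = 1 := by
    intro v
    rw [← map_mul, gen_mul_gen, map_one]
  have hgc : ∀ u v, G.Adj u v → π (gen G u) * π (gen G v) = π (gen G v) * π (gen G u) := by
    intro u v huv
    rw [← map_mul, ← map_mul, gen_comm G u v huv]
  have hspec : IsSpec G (prY Y P) (prS s (fun v => π (gen G v))) := isSpec_pr hs _ hgg hgc
  obtain ⟨H, hH1, hH2⟩ := lgHarmRev_exists G (prY Y P) (prS s (fun v => π (gen G v))) hspec ν i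
  let row : Fin (Fintype.card (RS G Y i)) → RS G Y i := (Fintype.equivFin (RS G Y i)).symm
  let Ψ : (Finset V → Ω × P → Unit → ℂ) →ₗ[ℂ] (Fin (Fintype.card (RS G Y i)) × P → ℂ) :=
    { toFun := fun f q => f (row q.1).1.2 ((row q.1).1.1, q.2) ()
      map_add' := fun _ _ => rfl
      map_smul' := fun _ _ => rfl }
  have hker : ∀ f ∈ H, Matrix.vecMul (Ψ f) M = 0 := by
    intro f hf
    funext ch
    obtain ⟨c, h⟩ := ch
    rw [Matrix.vecMul, dotProduct, Fintype.sum_prod_type, Pi.zero_apply,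
      ← lgHarmRev_col G Y s hs ν i P π (fun σ x => f σ x ()) (hH2 f hf)
        ((Fintype.equivFin (CS G Y i)).symm c) h, ← Equiv.sum_comp (Fintype.equivFin (RS G Y i))]
    refine Finset.sum_congr rfl fun r _ => ?_
    rw [← lgHarmRev_coeff]
    refine Finset.sum_congr rfl fun g _ => ?_
    have h1 : Ψ f ((Fintype.equivFin (RS G Y i)) r, g) = f r.1.2 (r.1.1, g) () := by
      show f (row _).1.2 ((row _).1.1, g) () = _
      simp only [row, Equiv.symm_apply_apply]
    rw [h1]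
    congr 1
    rw [hM]
    simp only [op, Matrix.of_apply, Matrix.map_apply, toC, HSA, Matrix.submatrix_apply,
      Equiv.symm_apply_apply]
  have hinj : ∀ f ∈ H, Ψ f = 0 → f = 0 := by
    intro f hf h0
    funext σ x u
    by_contra hne
    have h1 := (hH2 f hf).chain.supp σ x hne
    have h2 := congrFun h0 (Fintype.equivFin (RS G Y i) ⟨(x.1, σ), h1⟩, x.2)
    have h3 : Ψ f ((Fintype.equivFin (RS G Y i)) ⟨(x.1, σ), h1⟩, x.2) = f σ (x.1, x.2) () := by
      show f (row _).1.2 ((row _).1.1, x.2) () = _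
      simp only [row, Equiv.symm_apply_apply]
    rw [h3] at h2
    exact hne h2
  have hle : Module.finrank ℂ H ≤ Module.finrank ℂ (LinearMap.ker (Matrix.vecMulLinear M)) := by
    refine LinearMap.finrank_le_finrank_of_injective
      (f := (Ψ.domRestrict H).codRestrict (LinearMap.ker (Matrix.vecMulLinear M))
        (fun f => hker f.1 f.2)) ?_
    rw [← LinearMap.ker_eq_bot, LinearMap.ker_eq_bot']
    intro f hf
    have h1 : Ψ f.1 = 0 := congrArg Subtype.val hf
    exact Subtype.ext (hinj f.1 f.2 h1)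
  have h1 := LinearMap.finrank_range_add_finrank_ker (Matrix.vecMulLinear M)
  rw [Module.finrank_fintype_fun_eq_card, Fintype.card_prod, Fintype.card_fin] at h1
  have h3 : Module.finrank ℂ (LinearMap.range (Matrix.vecMulLinear M)) = M.rank := by
    have h4 : Matrix.vecMulLinear M = (Matrix.transpose M).mulVecLin := by
      apply LinearMap.ext
      intro x
      rw [Matrix.vecMulLinear_apply, Matrix.mulVecLin_apply, Matrix.mulVec_transpose]
    rw [h4, ← Matrix.rank_transpose M, Matrix.rank]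
  rw [h3] at h1
  have h5 : ((Fintype.card (RS G Y i) : ℕ) * Fintype.card P : ℝ) =
      (M.rank : ℝ) + Module.finrank ℂ (LinearMap.ker (Matrix.vecMulLinear M)) := by
    exact_mod_cast h1.symm
  rw [h5]
  have h6 : (bT ℂ G (prY Y P) (prS s (fun v => π (gen G v))) ν i : ℝ) ≤
      Module.finrank ℂ (LinearMap.ker (Matrix.vecMulLinear M)) := by
    exact_mod_cast hH1.trans hle
  linarith

end Pool.Agent.H19.LG
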