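import Pool.Agent.H19.LG.Defs
import Pool.Agent.H19.Cub.Transf
import Pool.Agent.H71.KZ.InfH
/-! # Project LG: InfRev -/

set_option autoImplicit false
set_option linter.unusedSectionVars false

open Finset Filter Topology

namespace Pool.Agent.H19.LG

open Pool.Agent.H19.Cub Pool.Agent.H4.Singer Pool.Agent.H85.Fold Pool.Agent.H85.Fold2
open Pool.Agent.H4.Atiyah
theorem l2ker_of_harm {V : Type} [DecidableEq V] [Fintype V] {Ω : Type} [Fintype Ω]
    (G : SimpleGraph V) (Y : Ω → Finset V) (s : V → Ω → Ω) (hs : IsSpec G Y s) (ν : V → ℕ)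
    (i : ℕ) (h0 : ∀ f : Finset V → Ω × RGrp G → ℂ,
      IsHarmS G (prY Y (RGrp G)) (prS s (gen G)) ν i f → f = 0) :
    ∀ x ∈ l2ker (toC (HSA G Y s ν i)), x = 0 :=
  Pool.Agent.H71.KZ.l2ker_of_harm G Y s hs ν i h0

end Pool.Agent.H19.LG
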