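import Pool.Agent.H71.KZ.FinH
import Pool.Agent.H71.KZ.InfH
import Pool.Agent.H19.LG.Defs

/-!
# Project LG: the Kazhdan direction

If there are no harmonic `ℓ²`-chains of degree `i` on `Ω × W`, then the Betti numbers over `ℂ` of the finite
levels `Ω × P j` are at most `η * |P j|` for almost all `j`.
-/

set_option autoImplicit false
set_option linter.unusedSectionVars false

open Finset Filter Topology

namespace Pool.Agent.H19.LG

open Pool.Agent.H19.Cub Pool.Agent.H4.Singer Pool.Agent.H85.Fold Pool.Agent.H85.Fold2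
open Pool.Agent.H4.Atiyah

/-- **The Kazhdan direction.** -/
theorem kazhdan {V : Type} [DecidableEq V] [Fintype V] {Ω : Type} [Fintype Ω]
    (G : SimpleGraph V) (Y : Ω → Finset V) (s : V → Ω → Ω) (hs : IsSpec G Y s) (ν : V → ℕ)
    (_ : Function.Injective ν) (i : ℕ) (P : ℕ → Type) [∀ j, Group (P j)] [∀ j, Fintype (P j)] (π : ∀ j, RGrp G →* P j)
    (hsep : ∀ w : RGrp G, w ≠ 1 → ∀ᶠ j in atTop, π j w ≠ 1)
    (h : ∀ f : Finset V → Ω × RGrp G → ℂ,
      IsHarmS G (prY Y (RGrp G)) (prS s (gen G)) ν i f → f = 0) (η : ℝ) (hη : 0 < η) :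
    ∀ᶠ j in atTop, (bT ℂ G (prY Y (P j)) (prS s (fun v => π j (gen G v))) ν i : ℝ) ≤
      η * Fintype.card (P j) := by
  classical
  have h1 := Pool.Agent.H71.KZ.l2ker_of_harm G Y s hs ν i h
  have h2 := Pool.Agent.H71.KZ.vnDim_zero _ h1
  filter_upwards [(vnDim_approx π hsep (toC (HSA G Y s ν i))).1 η hη] with j hj
  refine (Pool.Agent.H71.KZ.bT_le_rank G Y s hs ν i (P j) (π j)).trans ?_
  rw [h2, zero_add] at hj
  exact hj

end Pool.Agent.H19.LG
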