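import Pool.Agent.H19.LG.Defs
import Pool.Agent.H4.Singer.Levels

/-!
# Project LG: finite quotients with bits and a representation over a finite field

`P j = P₁ j × (V -> Z/2) × GL`: the first factor from `exists_two_group`, the second for the bits, the third for the representation.
-/

set_option autoImplicit false
set_option linter.unusedSectionVars false

open Finset Filter Topology

namespace Pool.Agent.H19.LG

open Pool.Agent.H19.Cub Pool.Agent.H4.Singer Pool.Agent.H85.Fold Pool.Agent.H85.Fold2

private theorem lgLevels_map_mul {D R : Type} [Fintype D] [Ring R] (M N : Matrix D D ℤ) :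
    (M * N).map (Int.cast : ℤ → R) = M.map (Int.cast : ℤ → R) * N.map (Int.cast : ℤ → R) :=
  Matrix.map_mul (f := Int.castRingHom R)

private theorem lgLevels_map_one {D R : Type} [DecidableEq D] [Ring R] :
    (1 : Matrix D D ℤ).map (Int.cast : ℤ → R) = 1 := by
  rw [Matrix.map_one] <;> simp

/-- the flip of one coordinate -/
private def lgLevels_flip {V : Type} [DecidableEq V] (v : V) : V → Multiplicative (ZMod 2) :=
  Pi.mulSingle v (Multiplicative.ofAdd 1)

private theorem lgLevels_flip_sq {V : Type} [DecidableEq V] (v : V) :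
    (lgLevels_flip v : V → Multiplicative (ZMod 2)) * lgLevels_flip v = 1 := by
  unfold lgLevels_flip
  rw [← Pi.mulSingle_mul]
  have : (Multiplicative.ofAdd (1 : ZMod 2)) * Multiplicative.ofAdd 1 = 1 := by decide
  rw [this, Pi.mulSingle_one]

private theorem lgLevels_bit (x : Multiplicative (ZMod 2)) :
    decide (x * Multiplicative.ofAdd 1 ≠ 1) = !(decide (x ≠ 1)) := by
  revert x
  decide

theorem exists_levels_rep {V : Type} [DecidableEq V] [Fintype V] (G : SimpleGraph V) {D : Type}
    [Fintype D] [DecidableEq D] (K : Type) [Field K] [Finite K] (A : V → Matrix D D ℤ)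
    (hA : ∀ v, A v * A v = 1) (hAc : ∀ u v, G.Adj u v → A u * A v = A v * A u) :
    ∃ (P : ℕ → Type) (_ : ∀ j, Group (P j)) (_ : ∀ j, Fintype (P j))
      (π : ∀ j, RGrp G →* P j) (D' : ∀ j, BG G (P j)) (r : ∀ j, P j →* Matrix D D K),
      (∀ w : RGrp G, w ≠ 1 → ∀ᶠ j in atTop, π j w ≠ 1) ∧ (∀ j v, (D' j).g v = π j (gen G v)) ∧
      ∀ j v, r j ((D' j).g v) = (A v).map (Int.cast : ℤ → K) := by
  classical
  have h1 := fun L => exists_two_group G L
  choose P₁ grp₁ fin₁ π₁ hP₁ hsep using h1
  have hfK : Fintype K := Fintype.ofFinite K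
  obtain ⟨u, hu⟩ : ∃ u : V → (Matrix D D K)ˣ, ∀ v, (u v : Matrix D D K) = (A v).map (Int.cast : ℤ → K) :=
    ⟨fun v =>
      { val := (A v).map (Int.cast : ℤ → K)
        inv := (A v).map (Int.cast : ℤ → K)
        val_inv := by rw [← lgLevels_map_mul, hA, lgLevels_map_one]
        inv_val := by rw [← lgLevels_map_mul, hA, lgLevels_map_one] }, fun v => rfl⟩
  obtain ⟨π₂, hπ₂⟩ : ∃ π : RGrp G →* (Matrix D D K)ˣ, ∀ v, π (gen G v) = u v :=
    exists_lift G u
      (fun v => by
        ext1
        rw [Units.val_mul, hu, ← lgLevels_map_mul, hA, lgLevels_map_one, Units.val_one])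
      (fun v w h => by
        ext1
        rw [Units.val_mul, Units.val_mul, hu, hu, ← lgLevels_map_mul, hAc v w h, lgLevels_map_mul])
  obtain ⟨π₃, hπ₃⟩ : ∃ π : RGrp G →* (V → Multiplicative (ZMod 2)), ∀ v, π (gen G v) = lgLevels_flip v :=
    exists_lift G lgLevels_flip lgLevels_flip_sq (fun u v _ => mul_comm _ _)
  have hfin : Fintype (Matrix D D K)ˣ := inferInstance
  refine ⟨fun j => P₁ j × (V → Multiplicative (ZMod 2)) × (Matrix D D K)ˣ, fun j => inferInstance,
    fun j => inferInstance, fun j => (π₁ j).prod (π₃.prod π₂),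
    fun j => { g := fun v => ((π₁ j).prod (π₃.prod π₂)) (gen G v)
               sq := fun v => by rw [← map_mul, gen_mul_gen, map_one]
               comm := fun u v h => by rw [← map_mul, ← map_mul, gen_comm G u v h]
               b := fun p v => decide (p.2.1 v ≠ 1)
               b_g := fun p v w => ?_ },
    fun j => (Units.coeHom _).comp ((MonoidHom.snd _ _).comp (MonoidHom.snd _ _)), ?_, ?_, ?_⟩
  · change decide ((p.2.1 * π₃ (gen G v)) w ≠ 1) = if v = w then !(decide (p.2.1 w ≠ 1)) else decide (p.2.1 w ≠ 1)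
    rw [hπ₃]
    by_cases hw : v = w
    · subst hw
      rw [if_pos rfl, Pi.mul_apply]
      unfold lgLevels_flip
      rw [Pi.mulSingle_eq_same]
      exact lgLevels_bit _
    · rw [if_neg hw, Pi.mul_apply]
      unfold lgLevels_flip
      rw [Pi.mulSingle_eq_of_ne (Ne.symm hw), mul_one]
  · intro w hw
    filter_upwards [eventually_ge_atTop ((racg G).toCoxeterSystem.length w)] with j hj h
    exact hsep j w hw hj (congrArg Prod.fst h)
  · intro j v
    rfl
  · intro j v
    change ((π₂ (gen G v) : (Matrix D D K)ˣ) : Matrix D D K) = _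
    rw [hπ₂, hu]

end Pool.Agent.H19.LG
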