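import Pool.Agent.H19.LG.MDefs
import Pool.Agent.H19.LG.Betti
import Pool.Agent.H19.LG.ChDim

/-!
# Project LG: MCmp

The Betti numbers over the complex numbers are at most those over an arbitrary field, characteristic two
included, when there are bits: the dimensions of the chains agree over all fields (`two_pow_cT`), and the cycles
are the kernel of an integer matrix.
-/

set_option autoImplicit false
set_option linter.unusedSectionVars false

open Finset Filter Topology

namespace Pool.Agent.H19.LG

open Pool.Agent.H19.Cub Pool.Agent.H4.Singer Pool.Agent.H85.Fold Pool.Agent.H85.Fold2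

private theorem lgMCmp_minor {m n K : Type} [Fintype m] [Fintype n] [Field K]
    (A : Matrix m n K) :
    ∃ (r : Fin A.rank → m) (c : Fin A.rank → n), (A.submatrix r c).det ≠ 0 := by
  classical
  have h1 : A.rank = Module.finrank K (Submodule.span K (Set.range A.row)) :=
    Matrix.rank_eq_finrank_span_row A
  obtain ⟨f, hf, -, hli⟩ := Submodule.exists_fun_fin_finrank_span_eq K (Set.range A.row)
  choose r0 hr0 using hf
  have hli' : LinearIndependent K (fun i : Fin A.rank => A (r0 (Fin.cast h1 i))) := by
    have h2 : (fun i : Fin A.rank => A (r0 (Fin.cast h1 i))) = f ∘ (Fin.cast h1) := by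
      funext i
      exact hr0 _
    rw [h2]
    exact hli.comp _ (Fin.cast_injective h1)
  set r : Fin A.rank → m := fun i => r0 (Fin.cast h1 i) with hr
  let B : Matrix (Fin A.rank) n K := A.submatrix r id
  have hB : B.rank = A.rank := by
    have := LinearIndependent.rank_matrix (M := B) hli'
    simpa using this
  have h3 : B.rank = Module.finrank K (Submodule.span K (Set.range B.col)) :=
    Matrix.rank_eq_finrank_span_cols B
  obtain ⟨g, hg, -, hgli⟩ := Submodule.exists_fun_fin_finrank_span_eq K (Set.range B.col)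
  choose c0 hc0 using hg
  have h4 : A.rank = Module.finrank K (Submodule.span K (Set.range B.col)) := by
    rw [← h3, hB]
  refine ⟨r, fun i => c0 (Fin.cast h4 i), ?_⟩
  have hli2 : LinearIndependent K (fun i : Fin A.rank => B.col (c0 (Fin.cast h4 i))) := by
    have h2 : (fun i : Fin A.rank => B.col (c0 (Fin.cast h4 i))) = g ∘ (Fin.cast h4) := by
      funext i
      exact hc0 _
    rw [h2]
    exact hgli.comp _ (Fin.cast_injective h4)
  have h5 : IsUnit (A.submatrix r fun i => c0 (Fin.cast h4 i)) := by
    rw [← Matrix.linearIndependent_cols_iff_isUnit]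
    exact hli2
  exact ((Matrix.isUnit_iff_isUnit_det _).1 h5).ne_zero

/-- ranks over the complex numbers and over an arbitrary field -/
private theorem lgMCmp_rank {m n : Type} [Fintype m] [Fintype n] (A : Matrix m n ℤ) (F : Type)
    [Field F] : (A.map (Int.cast : ℤ → F)).rank ≤ (A.map (Int.cast : ℤ → ℂ)).rank := by
  classical
  obtain ⟨r, c, hdet⟩ := lgMCmp_minor (A.map (Int.cast : ℤ → F))
  generalize (A.map (Int.cast : ℤ → F)).rank = k at r c hdet ⊢
  have h1 : (((A.submatrix r c).det : ℤ) : F) ≠ 0 := by
    have : ((A.map (Int.cast : ℤ → F)).submatrix r c) =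
        (Int.castRingHom F).mapMatrix (A.submatrix r c) := by
      ext i j
      simp
    rw [this, ← RingHom.map_det] at hdet
    simpa using hdet
  have h2 : (A.submatrix r c).det ≠ 0 := by
    intro h
    rw [h] at h1
    simp at h1
  have h3 : ((A.map (Int.cast : ℤ → ℂ)).submatrix r c).det ≠ 0 := by
    have : ((A.map (Int.cast : ℤ → ℂ)).submatrix r c) =
        (Int.castRingHom ℂ).mapMatrix (A.submatrix r c) := by
      ext i j
      simp
    rw [this, ← RingHom.map_det]
    simpa using h2
  have h4 : LinearIndependent ℂ ((A.map (Int.cast : ℤ → ℂ)).submatrix r c).row := by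
    rw [Matrix.linearIndependent_rows_iff_isUnit, Matrix.isUnit_iff_isUnit_det]
    exact isUnit_iff_ne_zero.2 h3
  have h5 : LinearIndependent ℂ (fun i => (A.map (Int.cast : ℤ → ℂ)).row (r i)) := by
    refine LinearIndependent.of_comp (LinearMap.funLeft ℂ ℂ c) ?_
    exact h4
  rw [Matrix.rank_eq_finrank_span_row]
  have h6 : Submodule.span ℂ (Set.range fun i => (A.map (Int.cast : ℤ → ℂ)).row (r i)) ≤
      Submodule.span ℂ (Set.range (A.map (Int.cast : ℤ → ℂ)).row) := by
    refine Submodule.span_mono ?_
    rintro _ ⟨i, rfl⟩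
    exact ⟨r i, rfl⟩
  have h7 := Submodule.finrank_mono h6
  rw [finrank_span_eq_card h5] at h7
  simpa using h7

/-- the cycles over the complex numbers and over an arbitrary field -/
private theorem lgMCmp_zT {V : Type} [DecidableEq V] [Fintype V] (G : SimpleGraph V)
    {X : Type} [Fintype X] (Y : X → Finset V) (s : V → X → X) (ν : V → ℕ) (i : ℕ) (K : Type)
    [Field K] : zT ℂ G Y s ν i ≤ zT K G Y s ν i := by
  obtain ⟨C, R, -, H⟩ := exists_matsS G (fun _ => (1 : Matrix Unit Unit ℤ)) ν i
  obtain ⟨m, n, _, _, A₀, A₁, -, -, hA⟩ := H X Y s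
  have hmc : ∀ (K : Type) [Field K], mc K (fun _ : V => (1 : Matrix Unit Unit ℤ)) =
      fun _ => (1 : Matrix Unit Unit K) := by
    intro K _
    funext v
    exact Matrix.map_one _ Int.cast_zero Int.cast_one
  have a1 := (hA ℂ).2
  have a2 := (hA K).2
  rw [hmc] at a1 a2
  have c1 := lgMCmp_rank A₁ K
  unfold zT
  omega

theorem bT_complex_le_field {V : Type} [DecidableEq V] [Fintype V] (G : SimpleGraph V)
    {X : Type} [Fintype X] (Y : X → Finset V) (s : V → X → X) (hs : IsSpec G Y s)
    (b : X → V → Bool) (hb : ∀ x u v, b (s u x) v = if u = v then !(b x v) else b x v)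
    (ν : V → ℕ) (hν : Function.Injective ν) (i : ℕ) (K : Type) [Field K] :
    bT ℂ G Y s ν i ≤ bT K G Y s ν i := by
  have h1 := bS_add ℂ G Y (fun _ => (1 : Matrix Unit Unit ℂ)) s hs ν hν i
  have h2 := bS_add K G Y (fun _ => (1 : Matrix Unit Unit K)) s hs ν hν i
  have h3 := lgMCmp_zT G Y s ν i K
  have h4 := lgMCmp_zT G Y s ν (i + 1) K
  have h5 : cT ℂ G Y s (i + 1) = cT K G Y s (i + 1) := by
    have e1 := two_pow_cT ℂ G Y s hs b hb (i + 1)
    have e2 := two_pow_cT K G Y s hs b hb (i + 1)
    exact Nat.eq_of_mul_eq_mul_left (Nat.two_pow_pos (i + 1)) (e1.trans e2.symm)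
  unfold zT at h3 h4
  unfold cT at h5
  unfold bT
  omega

end Pool.Agent.H19.LG
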