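import Pool.Agent.H19.LG.MDefs

/-! # Project LG: MCopies -/

set_option autoImplicit false
set_option linter.unusedSectionVars false

open Finset Filter Topology

namespace Pool.Agent.H19.LG

open Pool.Agent.H19.Cub Pool.Agent.H4.Singer Pool.Agent.H85.Fold Pool.Agent.H85.Fold2

private theorem lgMCopies_slice {V : Type} [DecidableEq V] [Fintype V] {K : Type} [Field K]
    (G : SimpleGraph V) {D : Type} [Fintype D] [DecidableEq D] (B : V → Matrix D D K)
    {Ω Q : Type} (Y : Ω → Finset V) (ν : V → ℕ) (i : ℕ) (f : Finset V → Ω × Q → D → K)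
    (hf : f ∈ SZ K G (prY Y Q) B triv ν i) (q : Q) :
    (fun (σ : Finset V) (x : Ω) => f σ (x, q)) ∈ SZ K G Y B triv ν i := by
  obtain ⟨⟨h1, h2⟩, h3⟩ := hf
  refine ⟨⟨fun σ x h => h1 σ (x, q) h, fun σ v hv x => h2 σ v hv (x, q)⟩, ?_⟩
  have h3' : tdl K ν f = 0 := h3
  refine LinearMap.mem_ker.2 ?_
  funext τ x
  have h4 := congrFun (congrFun h3' τ) (x, q)
  exact h4

private theorem lgMCopies_glue {V : Type} [DecidableEq V] [Fintype V] {K : Type} [Field K]
    (G : SimpleGraph V) {D : Type} [Fintype D] [DecidableEq D] (B : V → Matrix D D K)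
    {Ω Q : Type} (Y : Ω → Finset V) (ν : V → ℕ) (i : ℕ) (F : Q → Finset V → Ω → D → K)
    (hF : ∀ q, F q ∈ SZ K G Y B triv ν i) :
    (fun (σ : Finset V) (x : Ω × Q) => F x.2 σ x.1) ∈ SZ K G (prY Y Q) B triv ν i := by
  refine ⟨⟨fun σ x h => (hF x.2).1.1 σ x.1 h, fun σ v hv x => (hF x.2).1.2 σ v hv x.1⟩, ?_⟩
  refine LinearMap.mem_ker.2 ?_
  funext τ x
  have h3 : tdl K ν (F x.2) = 0 := (hF x.2).2
  have h4 := congrFun (congrFun h3 τ) x.1
  exact h4

theorem SZ_copiesM {V : Type} [DecidableEq V] [Fintype V] {K : Type} [Field K]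
    (G : SimpleGraph V) {D : Type} [Fintype D] [DecidableEq D] (B : V → Matrix D D K)
    {Ω Q : Type} [Fintype Ω] [Fintype Q] (Y : Ω → Finset V) (ν : V → ℕ) (i : ℕ) :
    Module.finrank K (SZ K G (prY Y Q) B triv ν i) =
      Fintype.card Q * Module.finrank K (SZ K G Y B triv ν i) := by
  classical
  have e : SZ K G (prY Y Q) B triv ν i ≃ₗ[K] (Q → SZ K G Y B triv ν i) :=
    { toFun := fun f q => ⟨fun σ x => f.1 σ (x, q), lgMCopies_slice G B Y ν i f.1 f.2 q⟩
      map_add' := fun f g => rfl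
      map_smul' := fun c f => rfl
      invFun := fun F => ⟨fun σ x => (F x.2).1 σ x.1,
        lgMCopies_glue G B Y ν i (fun q => (F q).1) fun q => (F q).2⟩
      left_inv := fun f => rfl
      right_inv := fun F => rfl }
  rw [e.finrank_eq, Module.finrank_pi_fintype, sum_const, card_univ, smul_eq_mul]

end Pool.Agent.H19.LG
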