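import Pool.Agent.H19.LG.MDefs
import Pool.Agent.H19.LG.Shift

/-!
# Project LG: MCyc

The cycles with coefficients in `Mm M m` are bounded by the number of the cells times `card D` plus `m - 1`
times the cycles with coefficients in `M.R` and trivial action of the labels on the points.
-/

set_option autoImplicit false
set_option linter.unusedSectionVars false

open Finset Filter Topology

namespace Pool.Agent.H19.LG

open Pool.Agent.H19.Cub Pool.Agent.H4.Singer Pool.Agent.H85.Fold Pool.Agent.H85.Fold2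

section aux

variable {V : Type} [DecidableEq V] [Fintype V] {K : Type} [Field K] {G : SimpleGraph V}
  {D : Type} [Fintype D] [DecidableEq D] {X : Type} [Fintype X]

/-- the action of the matrix `Mm M m v` -/
private theorem lgMCyc_mulVec (M : MB G K D) (m : ℕ) [NeZero m] (v : V) (f : ZMod m × D → K)
    (j : ZMod m) (d : D) :
    (Mm M m v).mulVec f (j, d) = (M.R v).mulVec (fun e => f (j, e)) d +
      (M.B v * (1 + M.R v)).mulVec (fun e => f (j + 1, e)) d := by
  unfold Mm Matrix.mulVec dotProduct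
  simp only [Matrix.of_apply, add_mul, sum_add_distrib, ite_mul, zero_mul]
  rw [Fintype.sum_prod_type, Fintype.sum_prod_type, sum_eq_single j, sum_eq_single (j + 1)]
  · simp
  · intro b _ hb
    simp [hb]
  · intro h
    exact absurd (mem_univ _) h
  · intro b _ hb
    simp [hb]
  · intro h
    exact absurd (mem_univ _) h

open Classical in
/-- extension by zero -/
private noncomputable def lgMCyc_ext (K : Type) [Field K] (D : Type) (G : SimpleGraph V)
    (Y : X → Finset V) (i : ℕ) : (RS G Y i → D → K) →ₗ[K] (Finset V → X → D → K) where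
  toFun z σ x := if h : σ ⊆ Y x ∧ G.IsClique (σ : Set V) ∧ σ.card = i then z ⟨(x, σ), h⟩ else 0
  map_add' z w := by
    funext σ x
    simp only [Pi.add_apply]
    split_ifs with h
    · rfl
    · simp
  map_smul' c z := by
    funext σ x
    simp only [Pi.smul_apply, RingHom.id_apply]
    split_ifs with h
    · rfl
    · simp

private theorem lgMCyc_ext_pos {Y : X → Finset V} {i : ℕ} (z : RS G Y i → D → K) {σ : Finset V}
    {x : X} (h : σ ⊆ Y x ∧ G.IsClique (σ : Set V) ∧ σ.card = i) :
    lgMCyc_ext K D G Y i z σ x = z ⟨(x, σ), h⟩ := dif_pos h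

private theorem lgMCyc_ext_neg {Y : X → Finset V} {i : ℕ} (z : RS G Y i → D → K) {σ : Finset V}
    {x : X} (h : ¬ (σ ⊆ Y x ∧ G.IsClique (σ : Set V) ∧ σ.card = i)) :
    lgMCyc_ext K D G Y i z σ x = 0 := dif_neg h

private theorem lgMCyc_ext_inj {Y : X → Finset V} {i : ℕ} :
    Function.Injective (lgMCyc_ext K D G Y i) := by
  intro z w h
  funext r
  obtain ⟨⟨x, σ⟩, hr⟩ := r
  have h1 := congrFun (congrFun h σ) x
  rwa [lgMCyc_ext_pos z hr, lgMCyc_ext_pos w hr] at h1

/-- the shifted part of the antisymmetry -/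
private def lgMCyc_L0 (M : MB G K D) :
    (Finset V → X → D → K) →ₗ[K] (V → Finset V → X → D → K) where
  toFun g v σ x := if v ∈ σ then (M.B v * (1 + M.R v)).mulVec (g σ x) else 0
  map_add' g g' := by
    funext v σ x
    simp only [Pi.add_apply]
    split_ifs
    · rw [Matrix.mulVec_add]
    · simp
  map_smul' c g := by
    funext v σ x
    simp only [Pi.smul_apply, RingHom.id_apply]
    split_ifs
    · rw [Matrix.mulVec_smul]
    · simp

/-- the part of the antisymmetry without shift -/
private def lgMCyc_L1 (M : MB G K D) (s : V → X → X) :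
    (Finset V → X → D → K) →ₗ[K] (V → Finset V → X → D → K) where
  toFun g v σ x := if v ∈ σ then g σ (s v x) + (M.R v).mulVec (g σ x) else 0
  map_add' g g' := by
    funext v σ x
    simp only [Pi.add_apply]
    split_ifs
    · rw [Matrix.mulVec_add]
      abel
    · simp
  map_smul' c g := by
    funext v σ x
    simp only [Pi.smul_apply, RingHom.id_apply]
    split_ifs
    · rw [Matrix.mulVec_smul, smul_add]
    · simp

/-- the operator at `j + 1` -/
private noncomputable def lgMCyc_A0 (M : MB G K D) (Y : X → Finset V) (ν : V → ℕ) (i : ℕ) :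
    (RS G Y i → D → K) →ₗ[K] (V → Finset V → X → D → K) × (Finset V → X → D → K) :=
  ((lgMCyc_L0 M).prod (tdl K ν)).comp (lgMCyc_ext K D G Y i)

/-- the operator at `j` -/
private noncomputable def lgMCyc_A1 (M : MB G K D) (Y : X → Finset V) (s : V → X → X) (i : ℕ) :
    (RS G Y i → D → K) →ₗ[K] (V → Finset V → X → D → K) × (Finset V → X → D → K) :=
  ((lgMCyc_L1 M s).prod 0).comp (lgMCyc_ext K D G Y i)

/-- the kernel of the operator at `j + 1` -/
private theorem lgMCyc_ker (M : MB G K D) (Y : X → Finset V) (ν : V → ℕ) (i : ℕ)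
    (z : RS G Y i → D → K) (hz : z ∈ LinearMap.ker (lgMCyc_A0 M Y ν i)) :
    lgMCyc_ext K D G Y i z ∈ SZ K G Y M.R triv ν i := by
  rw [LinearMap.mem_ker] at hz
  have h1 : lgMCyc_L0 M (lgMCyc_ext K D G Y i z) = 0 := congrArg Prod.fst hz
  have h2 : tdl K ν (lgMCyc_ext K D G Y i z) = 0 := congrArg Prod.snd hz
  refine ⟨⟨fun σ x h => ?_, fun σ v hv x => ?_⟩, h2⟩
  · by_contra hcon
    apply h
    apply lgMCyc_ext_neg
    intro h3
    exact hcon ⟨h3.1, fun u hu v hv huv => h3.2.1 hu hv huv, h3.2.2⟩
  · have h3 : (if v ∈ σ then (M.B v * (1 + M.R v)).mulVec (lgMCyc_ext K D G Y i z σ x) else 0) =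
        0 := congrFun (congrFun (congrFun h1 v) σ) x
    rw [if_pos hv] at h3
    have h4 := congrArg (fun w => (M.B v).mulVec w) h3
    simp only [Matrix.mulVec_mulVec, Matrix.mulVec_zero] at h4
    rw [← Matrix.mul_assoc, M.B_sq, Matrix.one_mul, Matrix.add_mulVec, Matrix.one_mulVec] at h4
    exact eq_neg_of_add_eq_zero_left h4

/-- the components of a chain -/
private def lgMCyc_Phi (K : Type) [Field K] (D : Type) (G : SimpleGraph V) (Y : X → Finset V)
    (i m : ℕ) : (Finset V → X → (ZMod m × D) → K) →ₗ[K] (ZMod m → RS G Y i → D → K) where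
  toFun f j r d := f r.1.2 r.1.1 (j, d)
  map_add' _ _ := rfl
  map_smul' _ _ := rfl

private theorem lgMCyc_ext_Phi (M : MB G K D) (m : ℕ) [NeZero m] (Y : X → Finset V)
    (s : V → X → X) (ν : V → ℕ) (i : ℕ) (f : Finset V → X → (ZMod m × D) → K)
    (hf : f ∈ SZ K G Y (Mm M m) s ν i) (j : ZMod m) (σ : Finset V) (x : X) :
    lgMCyc_ext K D G Y i (lgMCyc_Phi K D G Y i m f j) σ x = fun d => f σ x (j, d) := by
  by_cases h : σ ⊆ Y x ∧ G.IsClique (σ : Set V) ∧ σ.card = i
  · rw [lgMCyc_ext_pos _ h]
    rfl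
  · rw [lgMCyc_ext_neg _ h]
    have h1 : f σ x = 0 := by
      by_contra h2
      have h3 := hf.1.1 σ x h2
      exact h ⟨h3.1, fun u hu v hv huv => h3.2.1 u hu v hv huv, h3.2.2⟩
    funext d
    rw [h1]
    rfl

end aux

theorem cyc_boundM {V : Type} [DecidableEq V] [Fintype V] {K : Type} [Field K]
    {G : SimpleGraph V} {D : Type} [Fintype D] [DecidableEq D] (M : MB G K D) (m : ℕ)
    [NeZero m] {X : Type} [Fintype X] (Y : X → Finset V) (s : V → X → X) (hs : IsSpec G Y s)
    (ν : V → ℕ) (i : ℕ) :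
    Module.finrank K (SZ K G Y (Mm M m) s ν i) ≤
      nn G Y i * Fintype.card D + (m - 1) * Module.finrank K (SZ K G Y M.R triv ν i) := by
  classical
  have hE : Module.finrank K (RS G Y i → D → K) = nn G Y i * Fintype.card D := by
    rw [Module.finrank_pi_fintype]
    simp [nn]
  have hker : Module.finrank K (LinearMap.ker (lgMCyc_A0 M Y ν i)) ≤
      Module.finrank K (SZ K G Y M.R triv ν i) := by
    apply LinearMap.finrank_le_finrank_of_injective
      (f := (lgMCyc_ext K D G Y i).restrict (lgMCyc_ker M Y ν i))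
    intro z w h
    apply Subtype.ext
    exact lgMCyc_ext_inj (congrArg Subtype.val h)
  have hinj : Function.Injective
      ((lgMCyc_Phi K D G Y i m).domRestrict (SZ K G Y (Mm M m) s ν i)) := by
    intro f g h
    apply Subtype.ext
    funext σ x y
    obtain ⟨j, d⟩ := y
    have h1 := lgMCyc_ext_Phi M m Y s ν i f.1 f.2 j σ x
    have h2 := lgMCyc_ext_Phi M m Y s ν i g.1 g.2 j σ x
    have h3 : lgMCyc_Phi K D G Y i m f.1 = lgMCyc_Phi K D G Y i m g.1 := h
    rw [h3, h2] at h1
    exact (congrFun h1 d).symm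
  have h := shift_le (lgMCyc_A0 M Y ν i) (lgMCyc_A1 M Y s i) m
    (LinearMap.range ((lgMCyc_Phi K D G Y i m).domRestrict (SZ K G Y (Mm M m) s ν i))) (by
      rintro _ ⟨⟨f, hf⟩, rfl⟩ j
      show lgMCyc_A0 M Y ν i (lgMCyc_Phi K D G Y i m f (j + 1)) +
        lgMCyc_A1 M Y s i (lgMCyc_Phi K D G Y i m f j) = 0
      have hx : ∀ j, lgMCyc_ext K D G Y i (lgMCyc_Phi K D G Y i m f j) =
          fun σ x d => f σ x (j, d) := by
        intro j
        funext σ x
        exact lgMCyc_ext_Phi M m Y s ν i f hf j σ x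
      apply Prod.ext
      · show lgMCyc_L0 M (lgMCyc_ext K D G Y i (lgMCyc_Phi K D G Y i m f (j + 1))) +
          lgMCyc_L1 M s (lgMCyc_ext K D G Y i (lgMCyc_Phi K D G Y i m f j)) = 0
        rw [hx, hx]
        funext v σ x d
        show (if v ∈ σ then (M.B v * (1 + M.R v)).mulVec (fun d => f σ x (j + 1, d)) else 0) d +
          (if v ∈ σ then (fun d => f σ (s v x) (j, d)) +
            (M.R v).mulVec (fun d => f σ x (j, d)) else 0) d = 0
        split_ifs with hv
        · have h1 := congrFun (hf.1.2 σ v hv x) (j, d)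
          rw [Pi.neg_apply, lgMCyc_mulVec] at h1
          rw [Pi.add_apply, h1]
          ring
        · simp
      · show tdl K ν (lgMCyc_ext K D G Y i (lgMCyc_Phi K D G Y i m f (j + 1))) + 0 = 0
        rw [hx, add_zero]
        have h1 : tdl K ν f = 0 := hf.2
        funext τ x d
        have h2 := congrFun (congrFun (congrFun h1 τ) x) (j + 1, d)
        simpa [tdl, Finset.sum_apply] using h2)
  rw [LinearMap.finrank_range_of_inj hinj, hE] at h
  exact h.trans (by gcongr)

end Pool.Agent.H19.LG
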