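import Pool.Agent.H19.LG.Defs

/-!
# Project LG: the module form, definitions

`MB`: a module `K ^ D` with involutions `R v`, which commute for the edges, and bits `B v`; `Mm`: the matrices
`r_v = R_v + T N_v`, `N_v = B_v (1 + R_v)`, on the functions on `ℤ/m × D`, `(T f) (j, d) = f (j + 1, d)`.
-/

set_option autoImplicit false
set_option linter.unusedSectionVars false

open Finset

namespace Pool.Agent.H19.LG

/-- a module with involutions `R v`, which commute for the edges, and bits `B v` -/
structure MB {V : Type} (G : SimpleGraph V) (K : Type) [Field K] (D : Type) [Fintype D]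
    [DecidableEq D] where
  /-- the involutions -/
  R : V → Matrix D D K
  /-- the bits -/
  B : V → Matrix D D K
  R_sq : ∀ v, R v * R v = 1
  B_sq : ∀ v, B v * B v = 1
  anti : ∀ v, R v * B v = -(B v * R v)
  RR : ∀ u v, G.Adj u v → R u * R v = R v * R u
  RB : ∀ u v, G.Adj u v → R u * B v = B v * R u
  BB : ∀ u v, G.Adj u v → B u * B v = B v * B u

/-- the matrices `r_v = R_v + T N_v` -/
def Mm {V : Type} {G : SimpleGraph V} {K : Type} [Field K] {D : Type} [Fintype D]
    [DecidableEq D] (M : MB G K D) (m : ℕ) (v : V) : Matrix (ZMod m × D) (ZMod m × D) K :=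
  Matrix.of fun x y => (if y.1 = x.1 then M.R v x.2 y.2 else 0) +
    (if y.1 = x.1 + 1 then (M.B v * (1 + M.R v)) x.2 y.2 else 0)

end Pool.Agent.H19.LG
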