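import Pool.Agent.H19.LG.MDefs

/-! # Project LG: MDim -/

set_option autoImplicit false
set_option linter.unusedSectionVars false

open Finset Filter Topology

namespace Pool.Agent.H19.LG

open Pool.Agent.H19.Cub Pool.Agent.H4.Singer Pool.Agent.H85.Fold Pool.Agent.H85.Fold2

section aux

variable {V : Type} [DecidableEq V] {K : Type} [Field K] {G : SimpleGraph V} {D : Type}
  [Fintype D] [DecidableEq D] (M : MB G K D)

/-- the vectors which are antisymmetric for the labels in `σ` -/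
private def lgMDim_U (σ : Finset V) : Submodule K (D → K) where
  carrier := {w | ∀ v ∈ σ, w = -(M.R v).mulVec w}
  zero_mem' := fun v _ => by simp
  add_mem' := by
    intro a b ha hb v hv
    rw [Matrix.mulVec_add, neg_add, ← ha v hv, ← hb v hv]
  smul_mem' := by
    intro c a ha v hv
    rw [Matrix.mulVec_smul, ← smul_neg, ← ha v hv]

private theorem lgMDim_mem {σ : Finset V} {w : D → K} :
    w ∈ lgMDim_U M σ ↔ ∀ v ∈ σ, w = -(M.R v).mulVec w := Iff.rfl

private theorem lgMDim_RR {u v : V} (h : G.Adj u v) (w : D → K) :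
    (M.R u).mulVec ((M.R v).mulVec w) = (M.R v).mulVec ((M.R u).mulVec w) := by
  rw [Matrix.mulVec_mulVec, Matrix.mulVec_mulVec, M.RR u v h]

private theorem lgMDim_RB {u v : V} (h : G.Adj u v) (w : D → K) :
    (M.R u).mulVec ((M.B v).mulVec w) = (M.B v).mulVec ((M.R u).mulVec w) := by
  rw [Matrix.mulVec_mulVec, Matrix.mulVec_mulVec, M.RB u v h]

private theorem lgMDim_R2 (v : V) (w : D → K) : (M.R v).mulVec ((M.R v).mulVec w) = w := by
  rw [Matrix.mulVec_mulVec, M.R_sq, Matrix.one_mulVec]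

private theorem lgMDim_B2 (v : V) (w : D → K) : (M.B v).mulVec ((M.B v).mulVec w) = w := by
  rw [Matrix.mulVec_mulVec, M.B_sq, Matrix.one_mulVec]

private theorem lgMDim_anti (v : V) (w : D → K) :
    (M.R v).mulVec ((M.B v).mulVec w) = -(M.B v).mulVec ((M.R v).mulVec w) := by
  rw [Matrix.mulVec_mulVec, Matrix.mulVec_mulVec, M.anti, Matrix.neg_mulVec]

/-- one label more -/
private def lgMDim_step (h2 : (2 : K) ≠ 0) (T : Finset V) (v : V)
    (hT : ∀ u ∈ T, G.Adj u v) :
    lgMDim_U M T ≃ₗ[K] lgMDim_U M (insert v T) × lgMDim_U M (insert v T) where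
  toFun w := (⟨(2 : K)⁻¹ • (w.1 - (M.R v).mulVec w.1), by
      obtain ⟨w, hw⟩ := w
      intro u hu
      rw [Matrix.mulVec_smul, Matrix.mulVec_sub, ← smul_neg]
      congr 1
      rcases mem_insert.1 hu with rfl | hu
      · rw [lgMDim_R2]
        abel
      · rw [lgMDim_RR M (hT u hu)]
        have h3 := hw u hu
        have h4 : (M.R u).mulVec w = -w := by
          rw [eq_comm, neg_eq_iff_eq_neg]
          exact h3
        rw [h4, Matrix.mulVec_neg]
        abel⟩, ⟨(2 : K)⁻¹ • (M.B v).mulVec (w.1 + (M.R v).mulVec w.1), by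
      obtain ⟨w, hw⟩ := w
      intro u hu
      rw [Matrix.mulVec_smul, ← smul_neg]
      congr 1
      rcases mem_insert.1 hu with rfl | hu
      · rw [lgMDim_anti, Matrix.mulVec_add (M.R u), lgMDim_R2, neg_neg, add_comm]
      · rw [lgMDim_RB M (hT u hu), Matrix.mulVec_add (M.R u), lgMDim_RR M (hT u hu)]
        have h3 := hw u hu
        have h4 : (M.R u).mulVec w = -w := by
          rw [eq_comm, neg_eq_iff_eq_neg]
          exact h3
        rw [h4, Matrix.mulVec_neg, ← neg_add, Matrix.mulVec_neg, neg_neg]⟩)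
  invFun p := ⟨p.1.1 + (M.B v).mulVec p.2.1, by
    obtain ⟨⟨a, ha⟩, ⟨b, hb⟩⟩ := p
    intro u hu
    have h3 := ha u (mem_insert_of_mem hu)
    have h4 := hb u (mem_insert_of_mem hu)
    show a + (M.B v).mulVec b = -(M.R u).mulVec (a + (M.B v).mulVec b)
    rw [Matrix.mulVec_add, neg_add, ← h3, lgMDim_RB M (hT u hu), ← Matrix.mulVec_neg, ← h4]⟩
  map_add' x y := by
    refine Prod.ext (Subtype.ext ?_) (Subtype.ext ?_)
    · show (2 : K)⁻¹ • (x.1 + y.1 - (M.R v).mulVec (x.1 + y.1)) =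
        (2 : K)⁻¹ • (x.1 - (M.R v).mulVec x.1) + (2 : K)⁻¹ • (y.1 - (M.R v).mulVec y.1)
      rw [Matrix.mulVec_add, ← smul_add]
      congr 1
      abel
    · show (2 : K)⁻¹ • (M.B v).mulVec (x.1 + y.1 + (M.R v).mulVec (x.1 + y.1)) =
        (2 : K)⁻¹ • (M.B v).mulVec (x.1 + (M.R v).mulVec x.1) +
          (2 : K)⁻¹ • (M.B v).mulVec (y.1 + (M.R v).mulVec y.1)
      have e : x.1 + y.1 + (M.R v).mulVec (x.1 + y.1) =
          (x.1 + (M.R v).mulVec x.1) + (y.1 + (M.R v).mulVec y.1) := by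
        rw [Matrix.mulVec_add]
        abel
      rw [e, Matrix.mulVec_add, smul_add]
  map_smul' c x := by
    refine Prod.ext (Subtype.ext ?_) (Subtype.ext ?_)
    · show (2 : K)⁻¹ • (c • x.1 - (M.R v).mulVec (c • x.1)) =
        c • ((2 : K)⁻¹ • (x.1 - (M.R v).mulVec x.1))
      rw [Matrix.mulVec_smul, ← smul_sub, smul_comm]
    · show (2 : K)⁻¹ • (M.B v).mulVec (c • x.1 + (M.R v).mulVec (c • x.1)) =
        c • ((2 : K)⁻¹ • (M.B v).mulVec (x.1 + (M.R v).mulVec x.1))
      rw [Matrix.mulVec_smul (M.R v), ← smul_add, Matrix.mulVec_smul, smul_comm]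
  left_inv w := by
    apply Subtype.ext
    show (2 : K)⁻¹ • (w.1 - (M.R v).mulVec w.1) +
      (M.B v).mulVec ((2 : K)⁻¹ • (M.B v).mulVec (w.1 + (M.R v).mulVec w.1)) = w.1
    rw [Matrix.mulVec_smul, lgMDim_B2, ← smul_add]
    have h3 : w.1 - (M.R v).mulVec w.1 + (w.1 + (M.R v).mulVec w.1) = (2 : K) • w.1 := by
      rw [two_smul]
      abel
    rw [h3, smul_smul, inv_mul_cancel₀ h2, one_smul]
  right_inv p := by
    obtain ⟨⟨a, ha⟩, ⟨b, hb⟩⟩ := p
    have h3 : (M.R v).mulVec a = -a := by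
      rw [eq_comm, neg_eq_iff_eq_neg]
      exact ha v (mem_insert_self _ _)
    have h4 : (M.R v).mulVec b = -b := by
      rw [eq_comm, neg_eq_iff_eq_neg]
      exact hb v (mem_insert_self _ _)
    have h5 : (M.R v).mulVec (a + (M.B v).mulVec b) = -a + (M.B v).mulVec b := by
      rw [Matrix.mulVec_add, h3, lgMDim_anti, h4, Matrix.mulVec_neg, neg_neg]
    refine Prod.ext (Subtype.ext ?_) (Subtype.ext ?_)
    · show (2 : K)⁻¹ • (a + (M.B v).mulVec b - (M.R v).mulVec (a + (M.B v).mulVec b)) = a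
      rw [h5]
      have h6 : a + (M.B v).mulVec b - (-a + (M.B v).mulVec b) = (2 : K) • a := by
        rw [two_smul]
        abel
      rw [h6, smul_smul, inv_mul_cancel₀ h2, one_smul]
    · show (2 : K)⁻¹ • (M.B v).mulVec (a + (M.B v).mulVec b +
        (M.R v).mulVec (a + (M.B v).mulVec b)) = b
      rw [h5]
      have h6 : a + (M.B v).mulVec b + (-a + (M.B v).mulVec b) =
          (2 : K) • (M.B v).mulVec b := by
        rw [two_smul]
        abel
      rw [h6, Matrix.mulVec_smul, lgMDim_B2, smul_smul, inv_mul_cancel₀ h2, one_smul]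

private theorem lgMDim_cnt (h2 : (2 : K) ≠ 0) {σ : Finset V} (hσ : Cl G σ) :
    ∀ T : Finset V, T ⊆ σ →
      2 ^ T.card * Module.finrank K (lgMDim_U M T) = Fintype.card D := by
  intro T
  induction T using Finset.induction_on with
  | empty =>
    intro _
    have h3 : lgMDim_U M ∅ = ⊤ := by
      rw [Submodule.eq_top_iff']
      intro w v hv
      exact absurd hv (notMem_empty v)
    rw [h3, card_empty, pow_zero, one_mul, finrank_top, Module.finrank_fintype_fun_eq_card]
  | insert v T hv ih =>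
    intro hT
    have hT' : T ⊆ σ := (subset_insert _ _).trans hT
    have hvσ : v ∈ σ := hT (mem_insert_self _ _)
    have hadj : ∀ u ∈ T, G.Adj u v := fun u hu =>
      hσ u (hT' hu) v hvσ (fun e => hv (e ▸ hu))
    have h3 := (lgMDim_step M h2 T v hadj).finrank_eq
    rw [Module.finrank_prod] at h3
    have h4 := ih hT'
    rw [h3] at h4
    rw [card_insert_of_notMem hv, pow_succ, ← h4]
    ring

open Classical in
/-- the chains are the product of the spaces `U σ` -/
private noncomputable def lgMDim_pi [Fintype V] {X : Type} [Fintype X] (Y : X → Finset V)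
    (i : ℕ) : SCh K G Y M.R triv i ≃ₗ[K] ((r : RS G Y i) → lgMDim_U M r.1.2) where
  toFun f r := ⟨f.1 r.1.2 r.1.1, fun v hv => f.2.2 r.1.2 v hv r.1.1⟩
  invFun g := ⟨fun σ x => if h : σ ⊆ Y x ∧ G.IsClique (σ : Set V) ∧ σ.card = i
    then (g ⟨(x, σ), h⟩).1 else 0, by
    refine ⟨fun σ x h => ?_, fun σ v hv x => ?_⟩
    · by_cases h1 : σ ⊆ Y x ∧ G.IsClique (σ : Set V) ∧ σ.card = i
      · exact ⟨h1.1, fun a ha c hc hac => h1.2.1 ha hc hac, h1.2.2⟩
      · exact absurd (dif_neg h1) h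
    · show (if h : σ ⊆ Y x ∧ G.IsClique (σ : Set V) ∧ σ.card = i
        then (g ⟨(x, σ), h⟩).1 else 0) = -(M.R v).mulVec
        (if h : σ ⊆ Y x ∧ G.IsClique (σ : Set V) ∧ σ.card = i
        then (g ⟨(x, σ), h⟩).1 else 0)
      by_cases h1 : σ ⊆ Y x ∧ G.IsClique (σ : Set V) ∧ σ.card = i
      · rw [dif_pos h1]
        exact (g ⟨(x, σ), h1⟩).2 v hv
      · rw [dif_neg h1]
        simp⟩
  left_inv f := by
    obtain ⟨f, h1, h2⟩ := f
    apply Subtype.ext
    funext σ x
    show (if h : σ ⊆ Y x ∧ G.IsClique (σ : Set V) ∧ σ.card = i then f σ x else 0) = f σ x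
    by_cases h : σ ⊆ Y x ∧ G.IsClique (σ : Set V) ∧ σ.card = i
    · rw [dif_pos h]
    · rw [dif_neg h]
      by_contra hne
      obtain ⟨h4, h5, h6⟩ := h1 σ x fun h4 => hne h4.symm
      exact h ⟨h4, fun a ha c hc hac => h5 a ha c hc hac, h6⟩
  right_inv g := by
    funext r
    apply Subtype.ext
    exact dif_pos r.2
  map_add' _ _ := rfl
  map_smul' _ _ := rfl

end aux

theorem two_pow_M {V : Type} [DecidableEq V] [Fintype V] {K : Type} [Field K]
    (h2 : (2 : K) ≠ 0) {G : SimpleGraph V} {D : Type} [Fintype D] [DecidableEq D]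
    (M : MB G K D) {X : Type} [Fintype X] (Y : X → Finset V) (i : ℕ) :
    2 ^ i * Module.finrank K (SCh K G Y M.R triv i) = Fintype.card D * nn G Y i := by
  rw [(lgMDim_pi M Y i).finrank_eq, Module.finrank_pi_fintype, mul_sum]
  have h3 : ∀ r : RS G Y i, 2 ^ i * Module.finrank K (lgMDim_U M r.1.2) = Fintype.card D := by
    intro r
    have h4 := lgMDim_cnt M h2 (σ := r.1.2)
      (fun a ha c hc hac => r.2.2.1 ha hc hac) r.1.2 Subset.rfl
    rwa [r.2.2.2] at h4
  rw [sum_congr rfl fun r _ => h3 r, sum_const, card_univ, smul_eq_mul, mul_comm]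
  rfl

end Pool.Agent.H19.LG
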