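import Pool.Agent.H19.LG.MDefs

/-! # Project LG: MMod -/

set_option autoImplicit false
set_option linter.unusedSectionVars false

open Finset Filter Topology

namespace Pool.Agent.H19.LG

open Pool.Agent.H19.Cub Pool.Agent.H4.Singer Pool.Agent.H85.Fold Pool.Agent.H85.Fold2

section
variable {V : Type} {G : SimpleGraph V} {K : Type} [Field K] {D : Type} [Fintype D]
  [DecidableEq D] (M : MB G K D) (m : ℕ) [NeZero m]

/-- the nilpotent part -/
private def lgMMod_N (v : V) : Matrix D D K := M.B v * (1 + M.R v)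

/-- the action in slices -/
private theorem lgMMod_slice (v : V) (f : ZMod m × D → K) (j : ZMod m) (d : D) :
    (Mm M m v).mulVec f (j, d) = (M.R v).mulVec (fun d' => f (j, d')) d +
      (lgMMod_N M v).mulVec (fun d' => f (j + 1, d')) d := by
  unfold Mm lgMMod_N Matrix.mulVec dotProduct
  rw [Fintype.sum_prod_type]
  simp only [Matrix.of_apply, add_mul, ite_mul, zero_mul, sum_add_distrib]
  congr 1
  · rw [sum_comm]
    refine sum_congr rfl fun d' _ => ?_
    rw [sum_ite_eq' univ j fun a => M.R v d d' * f (a, d'), if_pos (mem_univ _)]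
  · rw [sum_comm]
    refine sum_congr rfl fun d' _ => ?_
    rw [sum_ite_eq' univ (j + 1) fun a => (M.B v * (1 + M.R v)) d d' * f (a, d'),
      if_pos (mem_univ _)]

theorem mulVec_Mm (v : V) (f : ZMod m × D → K) (j : ZMod m) (d : D) :
    (Mm M m v).mulVec f (j, d) = (M.R v).mulVec (fun d' => f (j, d')) d +
      (M.B v).mulVec (fun d' => f (j + 1, d') + (M.R v).mulVec (fun e => f (j + 1, e)) d') d := by
  rw [lgMMod_slice, lgMMod_N, ← Matrix.mulVec_mulVec, Matrix.add_mulVec, Matrix.one_mulVec]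
  rfl

/-- the action in slices, as functions -/
private theorem lgMMod_fun (v : V) (f : ZMod m × D → K) (j : ZMod m) :
    (fun d => (Mm M m v).mulVec f (j, d)) = (M.R v).mulVec (fun d' => f (j, d')) +
      (lgMMod_N M v).mulVec (fun d' => f (j + 1, d')) := by
  funext d
  exact lgMMod_slice M m v f j d

private theorem lgMMod_RN (v : V) : M.R v * lgMMod_N M v = -lgMMod_N M v := by
  unfold lgMMod_N
  rw [← mul_assoc, M.anti, neg_mul, mul_assoc, mul_add, mul_one, M.R_sq, add_comm]

private theorem lgMMod_NR (v : V) : lgMMod_N M v * M.R v = lgMMod_N M v := by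
  unfold lgMMod_N
  rw [mul_assoc, add_mul, one_mul, M.R_sq, add_comm]

private theorem lgMMod_NN (v : V) : lgMMod_N M v * lgMMod_N M v = 0 := by
  have h1 : (1 + M.R v) * M.B v = M.B v * (1 - M.R v) := by
    rw [add_mul, one_mul, M.anti, mul_sub, mul_one, sub_eq_add_neg]
  have h2 : (1 - M.R v) * (1 + M.R v) = 0 := by
    rw [sub_mul, one_mul, mul_add, mul_one, M.R_sq, add_comm 1 (M.R v), sub_self]
  unfold lgMMod_N
  rw [mul_assoc, ← mul_assoc (1 + M.R v), h1, mul_assoc (M.B v), h2, mul_zero, mul_zero]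

theorem Mm_sq (v : V) : Mm M m v * Mm M m v = 1 := by
  have key : ∀ f : ZMod m × D → K, (Mm M m v).mulVec ((Mm M m v).mulVec f) = f := by
    intro f
    funext x
    obtain ⟨j, d⟩ := x
    rw [lgMMod_slice, lgMMod_fun, lgMMod_fun, Matrix.mulVec_add, Matrix.mulVec_add]
    simp only [Matrix.mulVec_mulVec]
    rw [M.R_sq, lgMMod_RN, lgMMod_NR, lgMMod_NN, Matrix.one_mulVec, Matrix.neg_mulVec,
      Matrix.zero_mulVec, add_zero]
    simp only [Pi.add_apply, Pi.neg_apply]
    ring
  refine Matrix.ext_of_mulVec_single fun i => ?_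
  rw [← Matrix.mulVec_mulVec, key, Matrix.one_mulVec]

theorem Mm_comm (u v : V) (h : G.Adj u v) : Mm M m u * Mm M m v = Mm M m v * Mm M m u := by
  have hRR : Commute (M.R u) (M.R v) := M.RR u v h
  have hRB : Commute (M.R u) (M.B v) := M.RB u v h
  have hBR : Commute (M.B u) (M.R v) := (M.RB v u h.symm).symm
  have hBB : Commute (M.B u) (M.B v) := M.BB u v h
  have hRN : Commute (M.R u) (lgMMod_N M v) :=
    hRB.mul_right ((Commute.one_right _).add_right hRR)
  have hBN : Commute (M.B u) (lgMMod_N M v) :=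
    hBB.mul_right ((Commute.one_right _).add_right hBR)
  have hNR : Commute (lgMMod_N M u) (M.R v) :=
    hBR.mul_left ((Commute.one_left _).add_left hRR)
  have hNN : Commute (lgMMod_N M u) (lgMMod_N M v) :=
    hBN.mul_left ((Commute.one_left _).add_left hRN)
  have key : ∀ f : ZMod m × D → K, (Mm M m u).mulVec ((Mm M m v).mulVec f) =
      (Mm M m v).mulVec ((Mm M m u).mulVec f) := by
    intro f
    funext x
    obtain ⟨j, d⟩ := x
    rw [lgMMod_slice, lgMMod_fun, lgMMod_fun, lgMMod_slice, lgMMod_fun, lgMMod_fun]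
    simp only [Matrix.mulVec_add, Matrix.mulVec_mulVec]
    rw [hRR.eq, hRN.eq, hNR.eq, hNN.eq]
    simp only [Pi.add_apply]
    ring
  refine Matrix.ext_of_mulVec_single fun i => ?_
  rw [← Matrix.mulVec_mulVec, key, Matrix.mulVec_mulVec]
end

end Pool.Agent.H19.LG
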