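import Pool.Agent.H19.LG.Defs

/-! # Project LG: Prime -/

set_option autoImplicit false
set_option linter.unusedSectionVars false

open Finset Filter Topology

namespace Pool.Agent.H19.LG

open Pool.Agent.H19.Cub Pool.Agent.H4.Singer Pool.Agent.H85.Fold Pool.Agent.H85.Fold2

private theorem lgPrime_minor {m n K : Type} [Fintype m] [Fintype n] [Field K]
    (A : Matrix m n K) :
    ∃ (r : Fin A.rank → m) (c : Fin A.rank → n), (A.submatrix r c).det ≠ 0 := by
  classical
  have h1 : A.rank = Module.finrank K (Submodule.span K (Set.range A.row)) :=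
    Matrix.rank_eq_finrank_span_row A
  obtain ⟨f, hf, -, hli⟩ := Submodule.exists_fun_fin_finrank_span_eq K (Set.range A.row)
  choose r0 hr0 using hf
  have hli' : LinearIndependent K (fun i : Fin A.rank => A (r0 (Fin.cast h1 i))) := by
    have h2 : (fun i : Fin A.rank => A (r0 (Fin.cast h1 i))) = f ∘ (Fin.cast h1) := by
      funext i
      exact hr0 _
    rw [h2]
    exact hli.comp _ (Fin.cast_injective h1)
  set r : Fin A.rank → m := fun i => r0 (Fin.cast h1 i) with hr
  let B : Matrix (Fin A.rank) n K := A.submatrix r id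
  have hB : B.rank = A.rank := by
    have := LinearIndependent.rank_matrix (M := B) hli'
    simpa using this
  have h3 : B.rank = Module.finrank K (Submodule.span K (Set.range B.col)) :=
    Matrix.rank_eq_finrank_span_cols B
  obtain ⟨g, hg, -, hgli⟩ := Submodule.exists_fun_fin_finrank_span_eq K (Set.range B.col)
  choose c0 hc0 using hg
  have h4 : A.rank = Module.finrank K (Submodule.span K (Set.range B.col)) := by
    rw [← h3, hB]
  refine ⟨r, fun i => c0 (Fin.cast h4 i), ?_⟩
  have hli2 : LinearIndependent K (fun i : Fin A.rank => B.col (c0 (Fin.cast h4 i))) := by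
    have h2 : (fun i : Fin A.rank => B.col (c0 (Fin.cast h4 i))) = g ∘ (Fin.cast h4) := by
      funext i
      exact hc0 _
    rw [h2]
    exact hgli.comp _ (Fin.cast_injective h4)
  have h5 : IsUnit (A.submatrix r fun i => c0 (Fin.cast h4 i)) := by
    rw [← Matrix.linearIndependent_cols_iff_isUnit]
    exact hli2
  exact ((Matrix.isUnit_iff_isUnit_det _).1 h5).ne_zero

private theorem lgPrime_cast {m n F : Type} [Fintype m] [Fintype n] [Field F]
    (A : Matrix m n ℤ) {k : ℕ} (r : Fin k → m) (c : Fin k → n) :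
    ((A.map (Int.cast : ℤ → F)).submatrix r c).det = (((A.submatrix r c).det : ℤ) : F) := by
  have : ((A.map (Int.cast : ℤ → F)).submatrix r c) =
      (Int.castRingHom F).mapMatrix (A.submatrix r c) := by
    ext i j
    simp
  rw [this, ← RingHom.map_det]
  rfl

private theorem lgPrime_ge {m n : Type} [Fintype m] [Fintype n] (A : Matrix m n ℤ) (F : Type)
    [Field F] {k : ℕ} (r : Fin k → m) (c : Fin k → n)
    (h : (((A.submatrix r c).det : ℤ) : F) ≠ 0) : k ≤ (A.map (Int.cast : ℤ → F)).rank := by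
  classical
  have h3 : ((A.map (Int.cast : ℤ → F)).submatrix r c).det ≠ 0 := by
    rw [lgPrime_cast]
    exact h
  have h4 : LinearIndependent F ((A.map (Int.cast : ℤ → F)).submatrix r c).row := by
    rw [Matrix.linearIndependent_rows_iff_isUnit, Matrix.isUnit_iff_isUnit_det]
    exact isUnit_iff_ne_zero.2 h3
  have h5 : LinearIndependent F (fun i => (A.map (Int.cast : ℤ → F)).row (r i)) := by
    refine LinearIndependent.of_comp (LinearMap.funLeft F F c) ?_
    exact h4
  rw [Matrix.rank_eq_finrank_span_row]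
  have h6 : Submodule.span F (Set.range fun i => (A.map (Int.cast : ℤ → F)).row (r i)) ≤
      Submodule.span F (Set.range (A.map (Int.cast : ℤ → F)).row) := by
    refine Submodule.span_mono ?_
    rintro _ ⟨i, rfl⟩
    exact ⟨r i, rfl⟩
  have h7 := Submodule.finrank_mono h6
  rw [finrank_span_eq_card h5] at h7
  simpa using h7

/-- an integer matrix has the same rank over `ℂ` and modulo a large prime -/
private theorem lgPrime_rank {m n : Type} [Fintype m] [Fintype n] (A : Matrix m n ℤ) :
    ∃ p₀ : ℕ, ∀ (p : ℕ) [Fact p.Prime], p₀ ≤ p →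
      (A.map (Int.cast : ℤ → ZMod p)).rank = (A.map (Int.cast : ℤ → ℂ)).rank := by
  classical
  obtain ⟨r, c, hdet⟩ := lgPrime_minor (A.map (Int.cast : ℤ → ℂ))
  rw [lgPrime_cast] at hdet
  have hd : (A.submatrix r c).det ≠ 0 := by
    intro h
    rw [h] at hdet
    simp at hdet
  refine ⟨(A.submatrix r c).det.natAbs + 1, fun p _ hp => le_antisymm ?_ ?_⟩
  · obtain ⟨r', c', hdet'⟩ := lgPrime_minor (A.map (Int.cast : ℤ → ZMod p))
    rw [lgPrime_cast] at hdet'
    refine lgPrime_ge A ℂ r' c' ?_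
    intro h
    apply hdet'
    have : (A.submatrix r' c').det = 0 := by exact_mod_cast h
    rw [this, Int.cast_zero]
  · refine lgPrime_ge A (ZMod p) r c ?_
    intro h
    rw [ZMod.intCast_zmod_eq_zero_iff_dvd] at h
    have h2 := Int.natAbs_dvd_natAbs.2 h
    rw [Int.natAbs_natCast] at h2
    have h3 := Nat.le_of_dvd (Int.natAbs_pos.2 hd) h2
    omega

theorem bT_large {V : Type} [DecidableEq V] [Fintype V] (G : SimpleGraph V) {X : Type}
    [Fintype X] (Y : X → Finset V) (s : V → X → X) (ν : V → ℕ) (i : ℕ) :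
    ∃ p₀ : ℕ, ∀ (p : ℕ) [Fact p.Prime], p₀ ≤ p → bT (ZMod p) G Y s ν i ≤ bT ℂ G Y s ν i := by
  obtain ⟨C, R, -, H⟩ := exists_matsS G (fun _ => (1 : Matrix Unit Unit ℤ)) ν i
  obtain ⟨m, n, _, _, A₀, A₁, -, -, hA⟩ := H X Y s
  obtain ⟨C', R', -, H'⟩ := exists_matsS G (fun _ => (1 : Matrix Unit Unit ℤ)) ν (i + 1)
  obtain ⟨m', n', _, _, A₀', A₁', -, -, hA'⟩ := H' X Y s
  obtain ⟨p1, h1⟩ := lgPrime_rank A₁
  obtain ⟨p2, h2⟩ := lgPrime_rank A₀'
  obtain ⟨p3, h3⟩ := lgPrime_rank A₁'
  refine ⟨p1 + p2 + p3, fun p _ hp => ?_⟩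
  have hmc : ∀ (K : Type) [Field K], mc K (fun _ : V => (1 : Matrix Unit Unit ℤ)) =
      fun _ => (1 : Matrix Unit Unit K) := by
    intro K _
    funext v
    exact Matrix.map_one _ Int.cast_zero Int.cast_one
  have a1 := (hA ℂ).2
  have a2 := (hA (ZMod p)).2
  have b1 := (hA' ℂ).2
  have b2 := (hA' (ZMod p)).2
  have c1 := (hA' ℂ).1
  have c2 := (hA' (ZMod p)).1
  rw [hmc] at a1 a2 b1 b2 c1 c2
  have e1 := h1 p (by omega)
  have e2 := h2 p (by omega)
  have e3 := h3 p (by omega)
  have d1 := finrank_SB ℂ G Y (fun _ => (1 : Matrix Unit Unit ℂ)) s ν i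
  have d2 := finrank_SB (ZMod p) G Y (fun _ => (1 : Matrix Unit Unit (ZMod p))) s ν i
  unfold bT bS
  omega

end Pool.Agent.H19.LG
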