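import Pool.Agent.H19.LG.Defs
import Pool.Agent.H4.Singer.LuckVanish
/-! # Project LG: VnLe -/

set_option autoImplicit false
set_option linter.unusedSectionVars false

open Finset Filter Topology

namespace Pool.Agent.H19.LG

open Pool.Agent.H19.Cub Pool.Agent.H4.Singer Pool.Agent.H85.Fold Pool.Agent.H85.Fold2
open Pool.Agent.H4.Atiyah

/-- The upper bound for the von Neumann dimension by Lück approximation: the proof of
`vnDim_nonpos` with `vnDim - η` in place of `vnDim`. -/
theorem vnDim_le {G : Type} [Group G] [DecidableEq G] {P : ℕ → Type} [∀ j, Group (P j)]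
    [∀ j, Fintype (P j)] (π : ∀ j, G →* P j) (hπ : ∀ g : G, g ≠ 1 → ∀ᶠ j in atTop, π j g ≠ 1)
    {k n : ℕ} (A : Matrix (Fin k) (Fin n) (MonoidAlgebra ℤ G)) (η : ℝ) (hη : 0 ≤ η)
    (hdim : ∀ᶠ j in atTop, (k * Fintype.card (P j) : ℝ) -
      (op ((toC A).map (MonoidAlgebra.mapDomainRingHom ℂ (π j)))).rank ≤
        η * Fintype.card (P j)) :
    vnDim (toC A) ≤ η := by
  classical
  by_contra hcon
  push Not at hcon
  obtain ⟨d, hd⟩ : ∃ d, d = vnDim (toC A) - η := ⟨_, rfl⟩
  have hd0 : 0 < d := by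
    rw [hd]
    linarith
  obtain ⟨c, hc⟩ : ∃ c, c = l1 (toC A) ^ 2 + 1 := ⟨_, rfl⟩
  have hc1 : 1 ≤ c := by
    rw [hc]
    linarith [sq_nonneg (l1 (toC A))]
  have hlogc : 0 ≤ Real.log c := Real.log_nonneg hc1
  obtain ⟨L, hL⟩ : ∃ L, L = 4 * (k * Real.log c) / d + 1 := ⟨_, rfl⟩
  have hL0 : 0 < L := by
    rw [hL]
    positivity
  have hkL : k * (Real.log c / L) ≤ d / 4 := by
    rw [← mul_div_assoc, div_le_div_iff₀ hL0 (by norm_num)]
    have h1 : d * L = 4 * (k * Real.log c) + d := by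
      rw [hL]
      field_simp
    rw [h1]
    linarith
  have hε0 : 0 < Real.exp (-L) := Real.exp_pos _
  have hε1 : Real.exp (-L) < 1 := by
    rw [Real.exp_lt_one_iff]
    linarith
  have hlogε : Real.log (1 / Real.exp (-L)) = L := by
    rw [one_div, Real.log_inv, Real.log_exp, neg_neg]
  have h2 := (vnDim_approx π hπ (toC A)).2 (d / 8) (by linarith) (Real.exp (-L)) hε0
  obtain ⟨j, hj1, V, hV1, hV2⟩ := (hdim.and h2).exists
  have hbound : ∀ x : Fin k × P j → ℂ, nrm (Matrix.vecMul x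
      ((op (A.map (MonoidAlgebra.mapDomainRingHom ℤ (π j)))).map (Int.cast : ℤ → ℂ))) ≤
        c * nrm x := by
    intro x
    rw [← op_toC]
    have h3 := nrm_op_le (π j) (toC A) (c := c) (by rw [hc]; linarith) x
    have h4 : 0 ≤ nrm x := Real.sqrt_nonneg _
    refine le_of_sq_le_sq (h3.trans ?_) (by positivity)
    rw [mul_pow]
    have h5 : c ≤ c ^ 2 := by nlinarith
    exact mul_le_mul_of_nonneg_right h5 (sq_nonneg _)
  have hV2' : ∀ x ∈ V, nrm (Matrix.vecMul x
      ((op (A.map (MonoidAlgebra.mapDomainRingHom ℤ (π j)))).map (Int.cast : ℤ → ℂ))) ≤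
        Real.exp (-L) * nrm x := by
    intro x hx
    rw [← op_toC]
    exact hV2 x hx
  have h6 := luck_int (op (A.map (MonoidAlgebra.mapDomainRingHom ℤ (π j)))) c hc1 hbound
    (Real.exp (-L)) hε0 hε1 V hV2'
  rw [hlogε, ← op_toC, Fintype.card_prod, Fintype.card_fin] at h6
  push_cast at h6
  have hP : (0 : ℝ) < Fintype.card (P j) := by exact_mod_cast Fintype.card_pos
  have h7 : (k * Fintype.card (P j) : ℝ) * (Real.log c / L) ≤ d / 4 * Fintype.card (P j) := by
    calc (k * Fintype.card (P j) : ℝ) * (Real.log c / L)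
        = (k * (Real.log c / L)) * Fintype.card (P j) := by ring
      _ ≤ _ := mul_le_mul_of_nonneg_right hkL hP.le
  have h8 : 0 < d * Fintype.card (P j) := mul_pos hd0 hP
  have h9 : vnDim (toC A) = d + η := by
    rw [hd]
    ring
  rw [h9] at hV1
  nlinarith

end Pool.Agent.H19.LG
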