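import Pool.Agent.H19.LG.Defs
import Pool.Agent.H4.Singer.LuckVanish
/-! # Project LG: VnZero -/

set_option autoImplicit false
set_option linter.unusedSectionVars false

open Finset Filter Topology

namespace Pool.Agent.H19.LG

open Pool.Agent.H19.Cub Pool.Agent.H4.Singer Pool.Agent.H85.Fold Pool.Agent.H85.Fold2
open Pool.Agent.H4.Atiyah
theorem vnDim_of_l2ker {G : Type} [Group G] [DecidableEq G] {k n : ℕ}
    (A : Matrix (Fin k) (Fin n) (MonoidAlgebra ℂ G)) (h : ∀ x ∈ l2ker A, x = 0) :
    vnDim A = 0 := by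
  have h0 : (0 : lp (fun _ : Fin k × G => ℂ) 2) ∈ l2ker A := by
    intro i g
    simp
  have hset : l2ker A = {0} := Set.eq_singleton_iff_unique_mem.2 ⟨h0, h⟩
  unfold vnDim
  rw [hset]
  apply Finset.sum_eq_zero
  intro j _
  rw [Metric.infDist_singleton, dist_zero_right, lp.norm_single (by norm_num)]
  simp

end Pool.Agent.H19.LG
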