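import Pool.Agent.H19.LG.Core
import Pool.Agent.H19.LG.Prime
import Pool.Agent.H19.LG.HarmRev
import Pool.Agent.H19.LG.InfRev
import Pool.Agent.H19.LG.VnZero
import Pool.Agent.H19.LG.VnLe
import Pool.Agent.H19.LG.Levels

/-! # Project LG: Red

`red`: the von Neumann dimension of the harmonic chains of the complex is at most the normalized Betti
number of the degenerate complex (the disjoint union of the one-vertex complexes) of any finite `P`.
`kazhdan`: the normalized Betti numbers of the levels are asymptotically at most the von Neumann dimension.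
-/

set_option autoImplicit false
set_option linter.unusedSectionVars false

open Finset Filter Topology

namespace Pool.Agent.H19.LG

open Pool.Agent.H19.Cub Pool.Agent.H4.Singer Pool.Agent.H85.Fold Pool.Agent.H85.Fold2
open Pool.Agent.H4.Atiyah

variable {V : Type} [DecidableEq V] [Fintype V] {Ω : Type} [Fintype Ω]

theorem red {G : SimpleGraph V} [DecidableEq (RGrp G)] (Y : Ω → Finset V) (s : V → Ω → Ω)
    (hs : IsSpec G Y s) (ν : V → ℕ) (hν : Function.Injective ν) (i : ℕ) {P : Type} [Group P]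
    [Fintype P] (D : BG G P) :
    vnDim (toC (HSA G Y s ν i)) ≤
      (bT ℂ G (prY Y P) (prS triv D.g) ν i : ℝ) / Fintype.card P := by
  classical
  have hP : (0 : ℝ) < Fintype.card P := by exact_mod_cast Fintype.card_pos
  refine le_of_forall_pos_le_add fun η hη => ?_
  obtain ⟨p₀, hp₀⟩ := bT_large G (prY Y P) (prS triv D.g) ν i
  obtain ⟨p, hp, hprime⟩ := Nat.exists_infinite_primes (max p₀ 3)
  have : Fact p.Prime := ⟨hprime⟩
  have hp2 : p ≠ 2 := by
    have := (le_max_right p₀ 3).trans hp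
    omega
  have hb := hp₀ p ((le_max_left p₀ 3).trans hp)
  obtain ⟨m, hm⟩ := exists_nat_ge (((nn G Y i + nn G Y (i + 1) : ℕ) : ℝ) / η + 1)
  have hm1 : (1 : ℝ) ≤ m := by
    have : 0 ≤ ((nn G Y i + nn G Y (i + 1) : ℕ) : ℝ) / η := by positivity
    linarith
  have hm0 : m ≠ 0 := by
    rintro rfl
    norm_num at hm1
  have : NeZero m := ⟨hm0⟩
  have hmη : ((nn G Y i + nn G Y (i + 1) : ℕ) : ℝ) ≤ η * m := by
    have h1 : ((nn G Y i + nn G Y (i + 1) : ℕ) : ℝ) / η ≤ m := by linarith
    rwa [div_le_iff₀ hη, mul_comm] at h1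
  obtain ⟨P', grp, fin, π, D', r, hsep, hg, hr⟩ :=
    exists_levels_rep G (D := ZMod m × P) (ZMod p) (Bm D m) (Bm_sq D m) (Bm_comm D m)
  refine vnDim_le π hsep (HSA G Y s ν i) _ (by positivity) (Eventually.of_forall fun j => ?_)
  refine (harm_finS G Y s hs ν hν i (P' j) (π j)).trans ?_
  have h1 := core (ZMod p) D m (D' j) (r j) (hr j) Y s hs ν hν i
  have hs' : IsSpec G (prY Y (P' j)) (prS s (D' j).g) :=
    isSpec_pr hs (D' j).g (D' j).sq (D' j).comm
  have h2 := bT_complex_le G (prY Y (P' j)) (prS s (D' j).g) ν i p hp2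
  have h3 : (fun v => π j (gen G v)) = (D' j).g := by
    funext v
    exact (hg j v).symm
  rw [h3]
  have hP' : (0 : ℝ) < Fintype.card (P' j) := by exact_mod_cast Fintype.card_pos
  have hm' : (0 : ℝ) < m := by linarith
  have h4 : m * Fintype.card P * bT ℂ G (prY Y (P' j)) (prS s (D' j).g) ν i ≤
      (nn G Y i + nn G Y (i + 1)) * Fintype.card P * Fintype.card (P' j) +
        m * Fintype.card (P' j) * bT ℂ G (prY Y P) (prS triv D.g) ν i :=
    (Nat.mul_le_mul_left _ h2).trans (h1.trans (Nat.add_le_add_left (Nat.mul_le_mul_left _ hb) _))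
  have h5 : (m * Fintype.card P * bT ℂ G (prY Y (P' j)) (prS s (D' j).g) ν i : ℝ) ≤
      ((nn G Y i + nn G Y (i + 1) : ℕ) : ℝ) * Fintype.card P * Fintype.card (P' j) +
        m * Fintype.card (P' j) * bT ℂ G (prY Y P) (prS triv D.g) ν i := by exact_mod_cast h4
  generalize (bT ℂ G (prY Y (P' j)) (prS s (D' j).g) ν i : ℝ) = b' at *
  generalize (bT ℂ G (prY Y P) (prS triv D.g) ν i : ℝ) = b at *
  generalize (Fintype.card (P' j) : ℝ) = q at *
  generalize (Fintype.card P : ℝ) = c at *
  generalize ((nn G Y i + nn G Y (i + 1) : ℕ) : ℝ) = n at *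
  have h6 : (m * c) * b' ≤ (m * c) * ((b / c + η) * q) := by
    calc (m * c) * b' ≤ n * c * q + m * q * b := h5
      _ ≤ (η * m) * c * q + m * q * b := by gcongr
      _ = _ := by
        field_simp
        ring
  exact le_of_mul_le_mul_left h6 (by positivity)

theorem kazhdan {G : SimpleGraph V} [DecidableEq (RGrp G)] (Y : Ω → Finset V) (s : V → Ω → Ω)
    (hs : IsSpec G Y s) (ν : V → ℕ) (hν : Function.Injective ν) (i : ℕ) {P : ℕ → Type}
    [∀ j, Group (P j)] [∀ j, Fintype (P j)] (π : ∀ j, RGrp G →* P j)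
    (hsep : ∀ w : RGrp G, w ≠ 1 → ∀ᶠ j in atTop, π j w ≠ 1) (η : ℝ) (hη : 0 < η) :
    ∀ᶠ j in atTop, (bT ℂ G (prY Y (P j)) (prS s (fun v => π j (gen G v))) ν i : ℝ) ≤
      (vnDim (toC (HSA G Y s ν i)) + η) * Fintype.card (P j) := by
  filter_upwards [(vnDim_approx π hsep (toC (HSA G Y s ν i))).1 η hη] with j hj
  exact (bT_le_harm G Y s hs ν hν i (P j) (π j)).trans hj

/-- **The local-to-global inequality.** -/
theorem vnDim_le_triv {G : SimpleGraph V} [DecidableEq (RGrp G)] (Y : Ω → Finset V)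
    (s : V → Ω → Ω) (hs : IsSpec G Y s) (ν : V → ℕ) (hν : Function.Injective ν) (i : ℕ) :
    vnDim (toC (HSA G Y s ν i)) ≤ vnDim (toC (HSA G Y triv ν i)) := by
  classical
  refine le_of_forall_pos_le_add fun η hη => ?_
  obtain ⟨P, grp, fin, π, D, r, hsep, hg, -⟩ :=
    exists_levels_rep G (D := Unit) (ZMod 2) (fun _ => (1 : Matrix Unit Unit ℤ))
      (fun _ => mul_one _) (fun _ _ _ => rfl)
  obtain ⟨j, hj⟩ := (kazhdan Y triv (isSpec_triv G Y) ν hν i π hsep η hη).exists
  have h1 : (fun v => π j (gen G v)) = (D j).g := by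
    funext v
    exact (hg j v).symm
  rw [h1] at hj
  have hP : (0 : ℝ) < Fintype.card (P j) := by exact_mod_cast Fintype.card_pos
  refine (red Y s hs ν hν i (D j)).trans ?_
  rwa [div_le_iff₀ hP]

end Pool.Agent.H19.LG
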