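import Pool.Agent.H19.LG.Core
import Pool.Agent.H19.LG.MCyc
import Pool.Agent.H19.LG.MMod
import Pool.Agent.H19.LG.MDim
import Pool.Agent.H19.LG.MUntw
import Pool.Agent.H19.LG.MCopies
import Pool.Agent.H19.LG.MLevels
import Pool.Agent.H19.LG.MCmp
import Pool.Agent.H19.LG.VnLe

/-! # Project LG: RedM

The module form of `red`: for a module `M` with bits over a finite field of odd characteristic the von Neumann
dimension of the harmonic chains is at most `dim H_i(links; M) / dim M`.
-/

set_option autoImplicit false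
set_option linter.unusedSectionVars false

open Finset Filter Topology

namespace Pool.Agent.H19.LG

open Pool.Agent.H19.Cub Pool.Agent.H4.Singer Pool.Agent.H85.Fold Pool.Agent.H85.Fold2
open Pool.Agent.H4.Atiyah

theorem coreM {V : Type} [DecidableEq V] [Fintype V] {K : Type} [Field K] (h2 : (2 : K) ≠ 0)
    {G : SimpleGraph V} {D : Type} [Fintype D] [DecidableEq D] (M : MB G K D) (m : ℕ) [NeZero m]
    {P' : Type} [Group P'] [Fintype P'] (D' : BG G P')
    (r : P' →* Matrix (ZMod m × D) (ZMod m × D) K) (hr : ∀ v, r (D'.g v) = Mm M m v)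
    {Ω : Type} [Fintype Ω] (Y : Ω → Finset V) (s : V → Ω → Ω) (hs : IsSpec G Y s)
    (ν : V → ℕ) (hν : Function.Injective ν) (i : ℕ) :
    m * Fintype.card D * bT K G (prY Y P') (prS s D'.g) ν i ≤
      (nn G Y i + nn G Y (i + 1)) * Fintype.card D * Fintype.card P' +
        m * Fintype.card P' * bS K G Y M.R triv ν i := by
  have hs' : IsSpec G (prY Y P') (prS s D'.g) := isSpec_pr hs D'.g D'.sq D'.comm
  have h1 := cyc_boundM M m (prY Y P') (prS s D'.g) hs' ν i
  have h2' := cyc_boundM M m (prY Y P') (prS s D'.g) hs' ν (i + 1)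
  rw [SZ_copiesM, nn_pr] at h1 h2'
  have h3 := bS_add K G (prY Y P') (Mm M m) (prS s D'.g) hs' ν hν i
  rw [bS_untwM G (Mm M m) (Mm_sq M m) D'.g D'.sq r hr Y s ν i,
    sch_untwM G (Mm M m) (Mm_sq M m) D'.g D'.sq r hr Y s (i + 1)] at h3
  have h4 := two_pow_cT K G (prY Y P') (prS s D'.g) hs' (fun x => D'.b x.2)
    (fun x u v => D'.b_g x.2 u v) (i + 1)
  have h5 := two_pow_M h2 M Y (i + 1)
  have h6 := bS_add K G Y M.R triv (isSpec_triv G Y) ν hν i
  rw [nn_pr] at h4
  have hcard : Fintype.card (ZMod m × D) = m * Fintype.card D := by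
    rw [Fintype.card_prod, ZMod.card]
  rw [hcard] at h3
  have hm : 1 ≤ m := Nat.one_le_iff_ne_zero.2 (NeZero.ne m)
  generalize Module.finrank K (SZ K G (prY Y P') (Mm M m) (prS s D'.g) ν i) = a1 at *
  generalize Module.finrank K (SZ K G (prY Y P') (Mm M m) (prS s D'.g) ν (i + 1)) = a2 at *
  generalize Module.finrank K (SZ K G Y M.R triv ν i) = z1 at *
  generalize Module.finrank K (SZ K G Y M.R triv ν (i + 1)) = z2 at *
  generalize bS K G Y M.R triv ν i = b at *
  generalize bT K G (prY Y P') (prS s D'.g) ν i = b' at *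
  generalize cT K G (prY Y P') (prS s D'.g) (i + 1) = c' at *
  generalize Module.finrank K (SCh K G Y M.R triv (i + 1)) = c at *
  generalize Fintype.card D = p at *
  generalize Fintype.card P' = p' at *
  generalize nn G Y i = n1 at *
  generalize nn G Y (i + 1) = n2 at *
  obtain ⟨k, rfl⟩ : ∃ k, m = k + 1 := ⟨m - 1, by omega⟩
  rw [Nat.add_sub_cancel] at h1 h2'
  have h7 : p * c' = p' * c := by
    have h8 : 2 ^ (i + 1) * (p * c') = 2 ^ (i + 1) * (p' * c) := by
      calc 2 ^ (i + 1) * (p * c') = p * (2 ^ (i + 1) * c') := by ring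
        _ = p * (p' * n2) := by rw [h4]
        _ = p' * (p * n2) := by ring
        _ = p' * (2 ^ (i + 1) * c) := by rw [h5]
        _ = _ := by ring
    exact Nat.eq_of_mul_eq_mul_left (by positivity) h8
  have h9 : (k + 1) * p * b' + (k + 1) * (p' * c) ≤
      (n1 + n2) * p * p' + k * p' * (b + c) := by
    calc (k + 1) * p * b' + (k + 1) * (p' * c) = (k + 1) * p * b' + (k + 1) * p * c' := by
          rw [← h7]; ring
      _ = a1 + a2 := h3
      _ ≤ (p' * n1 * p + k * (p' * z1)) + (p' * n2 * p + k * (p' * z2)) := add_le_add h1 h2'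
      _ = (n1 + n2) * p * p' + k * p' * (z1 + z2) := by ring
      _ = (n1 + n2) * p * p' + k * p' * (b + c) := by rw [h6]
  nlinarith [Nat.zero_le (p' * b), Nat.zero_le (p' * c)]

theorem redM {V : Type} [DecidableEq V] [Fintype V] {K : Type} [Field K] [Finite K]
    (h2 : (2 : K) ≠ 0) {G : SimpleGraph V} [DecidableEq (RGrp G)] {D : Type} [Fintype D]
    [DecidableEq D] [Nonempty D] (M : MB G K D) {Ω : Type} [Fintype Ω] (Y : Ω → Finset V)
    (s : V → Ω → Ω) (hs : IsSpec G Y s) (ν : V → ℕ) (hν : Function.Injective ν) (i : ℕ) :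
    vnDim (toC (HSA G Y s ν i)) ≤ (bS K G Y M.R triv ν i : ℝ) / Fintype.card D := by
  classical
  have hD : (0 : ℝ) < Fintype.card D := by exact_mod_cast Fintype.card_pos
  refine le_of_forall_pos_le_add fun η hη => ?_
  obtain ⟨m, hm⟩ := exists_nat_ge (((nn G Y i + nn G Y (i + 1) : ℕ) : ℝ) / η + 1)
  have hm1 : (1 : ℝ) ≤ m := by
    have : 0 ≤ ((nn G Y i + nn G Y (i + 1) : ℕ) : ℝ) / η := by positivity
    linarith
  have hm0 : m ≠ 0 := by
    rintro rfl
    norm_num at hm1
  have : NeZero m := ⟨hm0⟩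
  have hmη : ((nn G Y i + nn G Y (i + 1) : ℕ) : ℝ) ≤ η * m := by
    have h1 : ((nn G Y i + nn G Y (i + 1) : ℕ) : ℝ) / η ≤ m := by linarith
    rwa [div_le_iff₀ hη, mul_comm] at h1
  obtain ⟨P', grp, fin, π, D', r, hsep, hg, hr⟩ :=
    exists_levelsM G K (Mm M m) (Mm_sq M m) (Mm_comm M m)
  refine vnDim_le π hsep (HSA G Y s ν i) _ (by positivity) (Eventually.of_forall fun j => ?_)
  refine (harm_finS G Y s hs ν hν i (P' j) (π j)).trans ?_
  have h1 := coreM h2 M m (D' j) (r j) (hr j) Y s hs ν hν i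
  have hs' : IsSpec G (prY Y (P' j)) (prS s (D' j).g) :=
    isSpec_pr hs (D' j).g (D' j).sq (D' j).comm
  have h2' := bT_complex_le_field G (prY Y (P' j)) (prS s (D' j).g) hs' (fun x => (D' j).b x.2)
    (fun x u v => (D' j).b_g x.2 u v) ν hν i K
  have h3 : (fun v => π j (gen G v)) = (D' j).g := by
    funext v
    exact (hg j v).symm
  rw [h3]
  have hP' : (0 : ℝ) < Fintype.card (P' j) := by exact_mod_cast Fintype.card_pos
  have hm' : (0 : ℝ) < m := by linarith
  have h4 : m * Fintype.card D * bT ℂ G (prY Y (P' j)) (prS s (D' j).g) ν i ≤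
      (nn G Y i + nn G Y (i + 1)) * Fintype.card D * Fintype.card (P' j) +
        m * Fintype.card (P' j) * bS K G Y M.R triv ν i :=
    (Nat.mul_le_mul_left _ h2').trans h1
  have h5 : (m * Fintype.card D * bT ℂ G (prY Y (P' j)) (prS s (D' j).g) ν i : ℝ) ≤
      ((nn G Y i + nn G Y (i + 1) : ℕ) : ℝ) * Fintype.card D * Fintype.card (P' j) +
        m * Fintype.card (P' j) * bS K G Y M.R triv ν i := by exact_mod_cast h4
  generalize (bT ℂ G (prY Y (P' j)) (prS s (D' j).g) ν i : ℝ) = b' at *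
  generalize (bS K G Y M.R triv ν i : ℝ) = b at *
  generalize (Fintype.card (P' j) : ℝ) = q at *
  generalize (Fintype.card D : ℝ) = c at *
  generalize ((nn G Y i + nn G Y (i + 1) : ℕ) : ℝ) = n at *
  have h6 : (m * c) * b' ≤ (m * c) * ((b / c + η) * q) := by
    calc (m * c) * b' ≤ n * c * q + m * q * b := h5
      _ ≤ (η * m) * c * q + m * q * b := by gcongr
      _ = _ := by
        field_simp
        ring
  exact le_of_mul_le_mul_left h6 (by positivity)

end Pool.Agent.H19.LG
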